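import Mathlib

set_option autoImplicit false

open Finset

namespace Pool.Agent.IndWidth

/-- increase the first run by one -/
def inc : List ℕ → List ℕ
  | [] => []
  | a :: t => (a + 1) :: t

theorem inc_injective : Function.Injective inc := by
  intro x y h
  cases x with
  | nil =>
    cases y with
    | nil => rfl
    | cons b t => simp [inc] at h
  | cons a t =>
    cases y with
    | nil => simp [inc] at h
    | cons b t' =>
      simp only [inc, List.cons.injEq] at h
      obtain ⟨h1, h2⟩ := h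
      have : a = b := by omega
      rw [this, h2]

/-- all lists obtained by inserting a dimer -/
def nb : List ℕ → Finset (List ℕ)
  | [] => ∅
  | a :: t =>
    ((if 2 ≤ a then HasAntidiagonal.antidiagonal (a - 2) else ∅).image (fun p => p.1 :: p.2 :: t)) ∪
      (nb t).image (fun y => a :: y)

theorem mem_nb_cons {a : ℕ} {t y : List ℕ} : y ∈ nb (a :: t) ↔
    (∃ u v, u + v + 2 = a ∧ y = u :: v :: t) ∨ ∃ y' ∈ nb t, y = a :: y' := by
  rw [nb, mem_union, mem_image, mem_image]
  constructor
  · rintro (⟨p, hp, rfl⟩ | ⟨y', hy', rfl⟩)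
    · left
      split_ifs at hp with h
      · rw [HasAntidiagonal.mem_antidiagonal] at hp
        exact ⟨p.1, p.2, by omega, rfl⟩
      · simp at hp
    · right
      exact ⟨y', hy', rfl⟩
  · rintro (⟨u, v, huv, rfl⟩ | ⟨y', hy', rfl⟩)
    · left
      refine ⟨(u, v), ?_, rfl⟩
      rw [if_pos (by omega), HasAntidiagonal.mem_antidiagonal]
      show u + v = a - 2
      omega
    · right
      exact ⟨y', hy', rfl⟩

theorem nb_length_sum {x y : List ℕ} (h : y ∈ nb x) :
    y.length = x.length + 1 ∧ y.sum + 2 = x.sum := by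
  induction x generalizing y with
  | nil => simp [nb] at h
  | cons a t ih =>
    rw [mem_nb_cons] at h
    rcases h with ⟨u, v, huv, rfl⟩ | ⟨y', hy', rfl⟩
    · simp; omega
    · have := ih hy'
      simp; omega

/-- the upper neighbourhood of a family of lists -/
def NN (S : Finset (List ℕ)) : Finset (List ℕ) := S.biUnion nb

theorem mem_NN {S : Finset (List ℕ)} {y : List ℕ} : y ∈ NN S ↔ ∃ x ∈ S, y ∈ nb x := by
  unfold NN; rw [mem_biUnion]

/-- the words starting with a dimer, with the dimer removed -/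
noncomputable def SD (S : Finset (List ℕ)) : Finset (List ℕ) :=
  S.preimage (fun t => 0 :: t) (fun _ _ _ _ h => (List.cons.inj h).2)

/-- the words starting with a monomer, with the monomer removed -/
noncomputable def SM (S : Finset (List ℕ)) : Finset (List ℕ) :=
  S.preimage inc (inc_injective.injOn)

theorem mem_SD {S : Finset (List ℕ)} {t : List ℕ} : t ∈ SD S ↔ 0 :: t ∈ S := by
  unfold SD; rw [mem_preimage]

theorem mem_SM {S : Finset (List ℕ)} {t : List ℕ} : t ∈ SM S ↔ inc t ∈ S := by
  unfold SM; rw [mem_preimage]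

theorem card_SD_SM {S : Finset (List ℕ)} (h : ∀ x ∈ S, x ≠ []) :
    S.card = (SD S).card + (SM S).card := by
  have h1 : S = (SD S).image (fun t => 0 :: t) ∪ (SM S).image inc := by
    ext x
    rw [mem_union, mem_image, mem_image]
    constructor
    · intro hx
      cases x with
      | nil => exact absurd rfl (h _ hx)
      | cons a t =>
        cases a with
        | zero => exact Or.inl ⟨t, mem_SD.2 hx, rfl⟩
        | succ a => exact Or.inr ⟨a :: t, mem_SM.2 hx, rfl⟩
    · rintro (⟨t, ht, rfl⟩ | ⟨t, ht, rfl⟩)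
      · exact mem_SD.1 ht
      · exact mem_SM.1 ht
  have h2 : Disjoint ((SD S).image (fun t => 0 :: t)) ((SM S).image inc) := by
    rw [disjoint_left]
    intro x hx hx'
    rw [mem_image] at hx hx'
    obtain ⟨t, _, rfl⟩ := hx
    obtain ⟨t', _, h3⟩ := hx'
    cases t' with
    | nil => simp [inc] at h3
    | cons a t'' => simp [inc] at h3
  conv_lhs => rw [h1]
  rw [card_union_of_disjoint h2, card_image_of_injective _ (fun _ _ h => (List.cons.inj h).2),
    card_image_of_injective _ inc_injective]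

theorem nb_inc {x y : List ℕ} (h : y ∈ nb x) : inc y ∈ nb (inc x) := by
  cases x with
  | nil => simp [nb] at h
  | cons a t =>
    rw [mem_nb_cons] at h
    show _ ∈ nb ((a + 1) :: t)
    rw [mem_nb_cons]
    rcases h with ⟨u, v, huv, rfl⟩ | ⟨y', hy', rfl⟩
    · left
      exact ⟨u + 1, v, by omega, rfl⟩
    · right
      exact ⟨y', hy', rfl⟩

theorem NN_SD_subset (S : Finset (List ℕ)) : NN (SD S) ⊆ SD (NN S) := by
  intro y hy
  rw [mem_NN] at hy
  obtain ⟨x, hx, hyx⟩ := hy
  rw [mem_SD] at hx ⊢
  rw [mem_NN]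
  exact ⟨0 :: x, hx, mem_nb_cons.2 (Or.inr ⟨y, hyx, rfl⟩)⟩

theorem NN_SM_subset (S : Finset (List ℕ)) : NN (SM S) ⊆ SM (NN S) := by
  intro y hy
  rw [mem_NN] at hy
  obtain ⟨x, hx, hyx⟩ := hy
  rw [mem_SM] at hx ⊢
  rw [mem_NN]
  exact ⟨inc x, hx, nb_inc hyx⟩

theorem SM_SM_subset {S : Finset (List ℕ)} (h : ∀ x ∈ S, x ≠ []) : SM (SM S) ⊆ SD (NN S) := by
  intro w hw
  rw [mem_SM, mem_SM] at hw
  rw [mem_SD, mem_NN]
  cases w with
  | nil => exact absurd rfl (h _ hw)
  | cons a t =>
    refine ⟨_, hw, ?_⟩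
    show 0 :: a :: t ∈ nb ((a + 1 + 1) :: t)
    rw [mem_nb_cons]
    left
    exact ⟨0, a, by omega, rfl⟩

/-- the shape condition -/
def Sh (m r : ℕ) (S : Finset (List ℕ)) : Prop := ∀ x ∈ S, x.length = r + 1 ∧ x.sum = m

theorem Sh.ne_nil {m r : ℕ} {S : Finset (List ℕ)} (h : Sh m r S) : ∀ x ∈ S, x ≠ [] := by
  intro x hx hx0
  have := (h x hx).1
  rw [hx0] at this
  simp at this

theorem Sh.SD {m r : ℕ} {S : Finset (List ℕ)} (h : Sh m (r + 1) S) : Sh m r (SD S) := by
  intro x hx
  rw [mem_SD] at hx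
  have := h _ hx
  simp at this
  exact this

theorem Sh.SM {m r : ℕ} {S : Finset (List ℕ)} (h : Sh (m + 1) r S) : Sh m r (SM S) := by
  intro x hx
  rw [mem_SM] at hx
  have := h _ hx
  cases x with
  | nil => simp [inc] at this
  | cons a t =>
    simp only [inc, List.length_cons, List.sum_cons] at this ⊢
    omega

theorem Sh.NN {m r : ℕ} {S : Finset (List ℕ)} (h : Sh (m + 2) r S) : Sh m (r + 1) (NN S) := by
  intro y hy
  rw [mem_NN] at hy
  obtain ⟨x, hx, hyx⟩ := hy
  have h1 := h x hx
  have h2 := nb_length_sum hyx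
  omega

/-- the normalised matching inequality -/
def AA (m r : ℕ) : Prop := ∀ S : Finset (List ℕ), Sh m r S →
  (m : ℝ) * ((m : ℝ) - 1) * (S.card : ℝ) ≤ ((m : ℝ) + r) * ((r : ℝ) + 1) * ((NN S).card : ℝ)

theorem AA_zero (m : ℕ) (hm : 2 ≤ m) : AA m 0 := by
  intro S hS
  have h1 : S ⊆ {[m]} := by
    intro x hx
    have := hS x hx
    rw [mem_singleton]
    obtain ⟨h1, h2⟩ := this
    rw [zero_add, List.length_eq_one_iff] at h1
    obtain ⟨a, rfl⟩ := h1
    simp at h2
    rw [h2]
  rcases Finset.subset_singleton_iff.1 h1 with h | h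
  · subst h
    simp [NN]
  · subst h
    have h2 : (NN {[m]}).card = m - 1 := by
      have : NN {[m]} = (HasAntidiagonal.antidiagonal (m - 2)).image (fun p => p.1 :: p.2 :: []) := by
        ext y
        rw [mem_NN, mem_image]
        constructor
        · rintro ⟨x, hx, hy⟩
          rw [mem_singleton] at hx
          subst hx
          rw [mem_nb_cons] at hy
          rcases hy with ⟨u, v, huv, rfl⟩ | ⟨y', hy', rfl⟩
          · exact ⟨(u, v), by rw [HasAntidiagonal.mem_antidiagonal]; show u + v = m - 2; omega, rfl⟩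
          · simp [nb] at hy'
        · rintro ⟨p, hp, rfl⟩
          rw [HasAntidiagonal.mem_antidiagonal] at hp
          refine ⟨[m], mem_singleton_self _, ?_⟩
          rw [mem_nb_cons]
          left
          exact ⟨p.1, p.2, by omega, rfl⟩
      rw [this, card_image_of_injective]
      · rw [Nat.card_antidiagonal]; omega
      · intro p q hpq
        simp only [List.cons.injEq, and_true] at hpq
        exact Prod.ext hpq.1 hpq.2
    rw [h2, card_singleton]
    have h3 : (((m - 1 : ℕ)) : ℝ) = (m : ℝ) - 1 := by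
      rw [Nat.cast_sub (by omega)]; simp
    rw [h3]
    simp

end Pool.Agent.IndWidth
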