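import Mathlib
import Pool.Agent.Helper646.IndWidth.Lists

set_option autoImplicit false

open Finset

namespace Pool.Agent.IndWidth

/-- split the run `i` into `u, v` -/
def spl {n : ℕ} (x : Fin n → ℕ) (i : Fin n) (u v : ℕ) : Fin (n + 1) → ℕ :=
  Fin.insertNth (α := fun _ => ℕ) i.castSucc u (Function.update x i v)

theorem spl_castSucc {n : ℕ} (x : Fin n → ℕ) (i : Fin n) (u v : ℕ) :
    spl x i u v i.castSucc = u := by
  unfold spl; exact Fin.insertNth_apply_same _ _ _

theorem spl_succAbove {n : ℕ} (x : Fin n → ℕ) (i : Fin n) (u v : ℕ) (j : Fin n) :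
    spl x i u v (i.castSucc.succAbove j) = Function.update x i v j := by
  unfold spl; exact Fin.insertNth_apply_succAbove _ _ _ _

theorem spl_succ {n : ℕ} (x : Fin n → ℕ) (i : Fin n) (u v : ℕ) :
    spl x i u v i.succ = v := by
  have h := spl_succAbove x i u v i
  rw [Fin.succAbove_castSucc_self] at h
  rw [h, Function.update_self]

theorem sum_spl {n : ℕ} {M : Type} [AddCommMonoid M] (g : ℕ → M) (x : Fin n → ℕ) (i : Fin n)
    (u v : ℕ) :
    ∑ j, g (spl x i u v j) + g (x i) = g u + g v + ∑ j, g (x j) := by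
  rw [Fin.sum_univ_succAbove _ i.castSucc, spl_castSucc]
  simp only [spl_succAbove]
  have h1 : ∑ j, g (Function.update x i v j) = g v + ∑ j ∈ univ.erase i, g (x j) := by
    rw [← Finset.add_sum_erase univ _ (mem_univ i), Function.update_self]
    congr 1
    apply sum_congr rfl
    intro j hj
    rw [Function.update_of_ne (ne_of_mem_erase hj)]
  rw [h1, ← Finset.add_sum_erase univ (fun j => g (x j)) (mem_univ i)]
  abel

theorem spl_zero {n : ℕ} (x : Fin (n + 1) → ℕ) (u v : ℕ) :
    List.ofFn (spl x 0 u v) = u :: v :: List.ofFn (fun j : Fin n => x j.succ) := by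
  rw [List.ofFn_succ, List.ofFn_succ]
  have h1 : spl x 0 u v 0 = u := spl_castSucc x 0 u v
  have h2 : spl x 0 u v (Fin.succ 0) = v := spl_succ x 0 u v
  rw [h1, h2]
  congr 3

theorem spl_succ_index {n : ℕ} (x : Fin (n + 1) → ℕ) (i : Fin n) (u v : ℕ) :
    List.ofFn (spl x i.succ u v) = x 0 :: List.ofFn (spl (fun j : Fin n => x j.succ) i u v) := by
  rw [List.ofFn_succ]
  have h1 : spl x i.succ u v 0 = x 0 := by
    have h := spl_succAbove x i.succ u v 0
    have h2 : (Fin.castSucc i.succ).succAbove 0 = 0 := by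
      apply Fin.succAbove_ne_zero_zero
      intro h
      have := congrArg Fin.val h
      simp at this
    rw [h2] at h
    rw [h, Function.update_of_ne (Fin.succ_ne_zero i).symm]
  rw [h1]
  congr 2
  funext j
  by_cases hj : j = i.castSucc
  · subst hj
    rw [spl_castSucc]
    have : (Fin.castSucc i).succ = Fin.castSucc i.succ := rfl
    rw [this, spl_castSucc]
  · obtain ⟨k, rfl⟩ := Fin.exists_succAbove_eq hj
    rw [spl_succAbove]
    have h2 : (i.castSucc.succAbove k).succ = (Fin.castSucc i.succ).succAbove k.succ := by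
      have h3 : Fin.castSucc i.succ = (Fin.castSucc i).succ := rfl
      rw [h3, Fin.succ_succAbove_succ]
    rw [h2, spl_succAbove]
    by_cases hk : k = i
    · subst hk; rw [Function.update_self, Function.update_self]
    · rw [Function.update_of_ne hk, Function.update_of_ne]
      intro h; exact hk (Fin.succ_injective _ h)

theorem ofFn_spl_mem {n : ℕ} (x : Fin n → ℕ) (i : Fin n) (u v : ℕ) (h : u + v + 2 = x i) :
    List.ofFn (spl x i u v) ∈ nb (List.ofFn x) := by
  induction n with
  | zero => exact i.elim0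
  | succ n ih =>
    rw [List.ofFn_succ (f := x), mem_nb_cons]
    rcases Fin.eq_zero_or_eq_succ i with rfl | ⟨j, rfl⟩
    · left
      exact ⟨u, v, h, spl_zero x u v⟩
    · right
      exact ⟨_, ih (fun j => x j.succ) j h, spl_succ_index x j u v⟩

/-- splittings of a run -/
def adg (a : ℕ) : Finset (ℕ × ℕ) := if 2 ≤ a then HasAntidiagonal.antidiagonal (a - 2) else ∅

theorem mem_adg {a : ℕ} {p : ℕ × ℕ} : p ∈ adg a ↔ p.1 + p.2 + 2 = a := by
  unfold adg
  split_ifs with h
  · rw [HasAntidiagonal.mem_antidiagonal]; omega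
  · simp; omega

/-- double counting with a weighted bipartite graph -/
theorem base_ineq {n m : ℕ} (ρ : ℝ) (hρ : 0 ≤ ρ) (F : (Fin (n + 1) → ℕ) → Fin n → ℝ)
    (hF0 : ∀ b : Fin (n + 1) → ℕ, ∑ j, b j + 2 = m → ∀ i, 0 ≤ F b i)
    (hin : ∀ b : Fin (n + 1) → ℕ, ∑ j, b j + 2 = m → ∑ i, F b i = ρ)
    (hout : ∀ x : Fin n → ℕ, ∑ j, x j = m → ∑ i, ∑ p ∈ adg (x i), F (spl x i p.1 p.2) i = 1)
    (S : Finset (List ℕ)) (hS : ∀ x ∈ S, x.length = n ∧ x.sum = m) :
    (S.card : ℝ) ≤ ρ * ((NN S).card : ℝ) := by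
  classical
  set S' : Finset (Fin n → ℕ) := S.preimage List.ofFn (List.ofFn_injective.injOn) with hS'
  set T' : Finset (Fin (n + 1) → ℕ) := (NN S).preimage List.ofFn (List.ofFn_injective.injOn)
    with hT'
  have memS' : ∀ x, x ∈ S' ↔ List.ofFn x ∈ S := fun x => by rw [hS', mem_preimage]
  have memT' : ∀ x, x ∈ T' ↔ List.ofFn x ∈ NN S := fun x => by rw [hT', mem_preimage]
  have hcS : S.card = S'.card := by
    have : S = S'.image List.ofFn := by
      ext x
      rw [mem_image]
      constructor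
      · intro hx
        obtain ⟨h1, h2⟩ := hS x hx
        subst h1
        exact ⟨x.get, by rw [memS', List.ofFn_get]; exact hx, List.ofFn_get x⟩
      · rintro ⟨y, hy, rfl⟩
        exact (memS' y).1 hy
    conv_lhs => rw [this]
    rw [card_image_of_injective _ List.ofFn_injective]
  have hcT : T'.card ≤ (NN S).card := by
    have : T'.image List.ofFn ⊆ NN S := by
      intro x hx
      rw [mem_image] at hx
      obtain ⟨y, hy, rfl⟩ := hx
      exact (memT' y).1 hy
    have h2 := card_le_card this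
    rwa [card_image_of_injective _ List.ofFn_injective] at h2
  have hsumS : ∀ x ∈ S', ∑ j, x j = m := by
    intro x hx
    have := (hS _ ((memS' x).1 hx)).2
    rwa [List.sum_ofFn] at this
  have hsumT : ∀ y ∈ T', ∑ j, y j + 2 = m := by
    intro y hy
    have := (memT' y).1 hy
    rw [mem_NN] at this
    obtain ⟨x, hx, hxy⟩ := this
    have h1 := (nb_length_sum hxy).2
    rw [List.sum_ofFn] at h1
    rw [h1]
    exact (hS x hx).2
  -- index set
  set I : Finset (Σ _ : (Fin n → ℕ) × Fin n, ℕ × ℕ) :=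
    (S' ×ˢ (univ : Finset (Fin n))).sigma (fun q => adg (q.1 q.2)) with hI
  set e : (Σ _ : (Fin n → ℕ) × Fin n, ℕ × ℕ) → (Fin (n + 1) → ℕ) × Fin n :=
    fun z => (spl z.1.1 z.1.2 z.2.1 z.2.2, z.1.2) with he
  have h1 : (S'.card : ℝ) = ∑ z ∈ I, F (e z).1 (e z).2 := by
    rw [hI, sum_sigma, sum_product]
    rw [card_eq_sum_ones]
    push_cast
    apply sum_congr rfl
    intro x hx
    exact (hout x (hsumS x hx)).symm
  have hinj : Set.InjOn e I := by
    rintro ⟨⟨x, i⟩, ⟨u, v⟩⟩ hz ⟨⟨x', i'⟩, ⟨u', v'⟩⟩ hz' h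
    rw [mem_coe, hI, mem_sigma, mem_product] at hz hz'
    simp only [he, Prod.mk.injEq] at h
    obtain ⟨h2, h3⟩ := h
    subst h3
    have hu : u = u' := by
      have := congrFun h2 i.castSucc
      rwa [spl_castSucc, spl_castSucc] at this
    have hv : v = v' := by
      have := congrFun h2 i.succ
      rwa [spl_succ, spl_succ] at this
    subst hu
    subst hv
    have hx : x = x' := by
      funext j
      by_cases hj : j = i
      · subst hj
        have e1 := mem_adg.1 hz.2
        have e2 := mem_adg.1 hz'.2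
        simp only at e1 e2
        rw [← e1, ← e2]
      · have := congrFun h2 (i.castSucc.succAbove j)
        rwa [spl_succAbove, spl_succAbove, Function.update_of_ne hj,
          Function.update_of_ne hj] at this
    subst hx
    rfl
  have hsub : I.image e ⊆ T' ×ˢ (univ : Finset (Fin n)) := by
    intro w hw
    rw [mem_image] at hw
    obtain ⟨⟨⟨x, i⟩, ⟨u, v⟩⟩, hz, rfl⟩ := hw
    rw [hI, mem_sigma, mem_product] at hz
    rw [mem_product]
    refine ⟨?_, mem_univ _⟩
    rw [memT', mem_NN]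
    exact ⟨_, (memS' x).1 hz.1.1, ofFn_spl_mem x i u v (mem_adg.1 hz.2)⟩
  have h2 : ∑ z ∈ I, F (e z).1 (e z).2 = ∑ w ∈ I.image e, F w.1 w.2 := by
    rw [sum_image hinj]
  have h3 : ∑ w ∈ I.image e, F w.1 w.2 ≤ ∑ w ∈ T' ×ˢ (univ : Finset (Fin n)), F w.1 w.2 := by
    apply sum_le_sum_of_subset_of_nonneg hsub
    intro w hw _
    rw [mem_product] at hw
    exact hF0 _ (hsumT _ hw.1) _
  have h4 : ∑ w ∈ T' ×ˢ (univ : Finset (Fin n)), F w.1 w.2 = ρ * (T'.card : ℝ) := by
    rw [sum_product]
    rw [sum_congr rfl (fun y hy => hin y (hsumT y hy)), sum_const, nsmul_eq_mul, mul_comm]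
  rw [hcS, h1, h2]
  refine h3.trans ?_
  rw [h4]
  exact mul_le_mul_of_nonneg_left (by exact_mod_cast hcT) hρ

end Pool.Agent.IndWidth
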