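import Mathlib
import Pool.Agent.Helper646.IndWidth.Base

set_option autoImplicit false

open Finset

namespace Pool.Agent.IndWidth

def ev (v : ℕ) : ℕ := if v % 2 = 0 then 1 else 0
def wv (v : ℕ) : ℕ := if v % 2 = 0 then v / 2 else 0

theorem ev_even (i : ℕ) : ev (2 * i) = 1 := by unfold ev; rw [if_pos (by omega)]
theorem ev_odd (i : ℕ) : ev (2 * i + 1) = 0 := by unfold ev; rw [if_neg (by omega)]
theorem wv_even (i : ℕ) : wv (2 * i) = i := by unfold wv; rw [if_pos (by omega)]; omega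
theorem wv_odd (i : ℕ) : wv (2 * i + 1) = 0 := by unfold wv; rw [if_neg (by omega)]

noncomputable def psi (al al' be ga : ℕ → ℝ) (E W v : ℕ) : ℝ :=
  if v % 2 = 0 then al E + al' E * W - be E * ((v / 2 : ℕ) : ℝ)
  else ga E * (((v / 2 : ℕ) : ℝ) + 1)

theorem psi_even (al al' be ga : ℕ → ℝ) (E W i : ℕ) :
    psi al al' be ga E W (2 * i) = al E + al' E * W - be E * i := by
  unfold psi
  rw [if_pos (by omega)]
  have : 2 * i / 2 = i := by omega
  rw [this]

theorem psi_odd (al al' be ga : ℕ → ℝ) (E W i : ℕ) :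
    psi al al' be ga E W (2 * i + 1) = ga E * ((i : ℝ) + 1) := by
  unfold psi
  rw [if_neg (by omega)]
  have : (2 * i + 1) / 2 = i := by omega
  rw [this]

theorem weight_sum_fin {n : ℕ} (c : Fin (n + 1) → ℝ) :
    ∑ i : Fin n, (((i.val : ℝ) + 1) * c i.succ + ((n : ℝ) - i.val) * c i.castSucc) =
      n * ∑ j, c j := by
  rw [sum_add_distrib]
  have A : ∑ i : Fin n, ((i.val : ℝ) + 1) * c i.succ = ∑ j : Fin (n + 1), (j.val : ℝ) * c j := by
    rw [Fin.sum_univ_succ]; simp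
  have B : ∑ i : Fin n, ((n : ℝ) - i.val) * c i.castSucc =
      ∑ j : Fin (n + 1), ((n : ℝ) - j.val) * c j := by
    rw [Fin.sum_univ_castSucc]; simp
  rw [A, B, ← sum_add_distrib, mul_sum]
  apply sum_congr rfl
  intro j _
  ring

theorem sum_range_two_mul (h : ℕ → ℝ) (w : ℕ) :
    ∑ k ∈ range (2 * w), h k = ∑ i ∈ range w, (h (2 * i) + h (2 * i + 1)) := by
  induction w with
  | zero => simp
  | succ w ih =>
    rw [show 2 * (w + 1) = 2 * w + 1 + 1 by ring, sum_range_succ, sum_range_succ, ih,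
      sum_range_succ]
    ring

theorem sum_adg (f : ℕ → ℕ → ℝ) (a : ℕ) (ha : 2 ≤ a) :
    ∑ p ∈ adg a, f p.1 p.2 = ∑ k ∈ range (a - 1), f (a - 2 - k) k := by
  unfold adg
  rw [if_pos ha]
  have h1 := Finset.Nat.sum_antidiagonal_eq_sum_range_succ (fun i j => f j i) (a - 2)
  have h2 : (a - 2).succ = a - 1 := by omega
  rw [h2] at h1
  rw [← h1]
  have h3 := Finset.Nat.sum_antidiagonal_swap (n := a - 2) (f := fun p : ℕ × ℕ => f p.1 p.2)
  rw [← h3]
  rfl

theorem sum_adg_swap (f : ℕ → ℕ → ℝ) (a : ℕ) :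
    ∑ p ∈ adg a, f p.2 p.1 = ∑ p ∈ adg a, f p.1 p.2 := by
  unfold adg
  split_ifs with h
  · have h3 := Finset.Nat.sum_antidiagonal_swap (n := a - 2) (f := fun p : ℕ × ℕ => f p.1 p.2)
    rw [← h3]
    rfl
  · simp

section
variable (al al' be ga : ℕ → ℝ)

theorem Phi_odd (H1 : ∀ E, al' (E + 1) - be (E + 1) + ga (E + 1) = 0) (E W w : ℕ) :
    ∑ p ∈ adg (2 * w + 1), psi al al' be ga (E + ev p.1 + ev p.2 - ev (2 * w + 1))
      (W + wv p.1 + wv p.2 - wv (2 * w + 1)) p.2 =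
      w * (al (E + 1) + ga (E + 1) + al' (E + 1) * W) := by
  rcases Nat.eq_zero_or_pos w with rfl | hw
  · simp [adg]
  · rw [sum_adg (fun u v => psi al al' be ga (E + ev u + ev v - ev (2 * w + 1))
      (W + wv u + wv v - wv (2 * w + 1)) v) _ (by omega)]
    rw [show 2 * w + 1 - 1 = 2 * w by omega, sum_range_two_mul]
    have hterm : ∀ i ∈ range w,
        (psi al al' be ga (E + ev (2 * w + 1 - 2 - 2 * i) + ev (2 * i) - ev (2 * w + 1))
          (W + wv (2 * w + 1 - 2 - 2 * i) + wv (2 * i) - wv (2 * w + 1)) (2 * i) +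
        psi al al' be ga (E + ev (2 * w + 1 - 2 - (2 * i + 1)) + ev (2 * i + 1) - ev (2 * w + 1))
          (W + wv (2 * w + 1 - 2 - (2 * i + 1)) + wv (2 * i + 1) - wv (2 * w + 1)) (2 * i + 1))
        = al (E + 1) + ga (E + 1) + al' (E + 1) * W := by
      intro i hi
      rw [mem_range] at hi
      have e1 : 2 * w + 1 - 2 - 2 * i = 2 * (w - 1 - i) + 1 := by omega
      have e2 : 2 * w + 1 - 2 - (2 * i + 1) = 2 * (w - 1 - i) := by omega
      rw [e1, e2, ev_odd, ev_odd, ev_odd, ev_even, ev_even, wv_odd, wv_odd, wv_odd, wv_even,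
        wv_even, psi_even, psi_odd]
      simp only [Nat.sub_zero, Nat.add_zero]
      push_cast
      linear_combination (i : ℝ) * H1 E
    rw [sum_congr rfl hterm, sum_const, card_range, nsmul_eq_mul]

theorem Phi_even (H2 : ∀ E, ga E = be (E + 2)) (E W w : ℕ) (hE : 1 ≤ E) (hW : w ≤ W) :
    ∑ p ∈ adg (2 * w), psi al al' be ga (E + ev p.1 + ev p.2 - ev (2 * w))
      (W + wv p.1 + wv p.2 - wv (2 * w)) p.2 =
      w * (al (E + 1) + al' (E + 1) * ((W : ℝ) - 1)) := by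
  rcases Nat.eq_zero_or_pos w with rfl | hw
  · simp [adg]
  · obtain ⟨k, rfl⟩ : ∃ k, w = k + 1 := ⟨w - 1, by omega⟩
    obtain ⟨E', rfl⟩ : ∃ k, E = k + 1 := ⟨E - 1, by omega⟩
    rw [sum_adg (fun u v => psi al al' be ga (E' + 1 + ev u + ev v - ev (2 * (k + 1)))
      (W + wv u + wv v - wv (2 * (k + 1))) v) _ (by omega)]
    rw [show 2 * (k + 1) - 1 = 2 * k + 1 by omega, sum_range_succ, sum_range_two_mul]
    have hev : ∀ i, i ≤ k → psi al al' be ga
          (E' + 1 + ev (2 * (k + 1) - 2 - 2 * i) + ev (2 * i) - ev (2 * (k + 1)))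
          (W + wv (2 * (k + 1) - 2 - 2 * i) + wv (2 * i) - wv (2 * (k + 1))) (2 * i) =
        al (E' + 1 + 1) + al' (E' + 1 + 1) * ((W : ℝ) - 1) - be (E' + 1 + 1) * i := by
      intro i hi
      have e1 : 2 * (k + 1) - 2 - 2 * i = 2 * (k - i) := by omega
      rw [e1, ev_even, ev_even, ev_even, wv_even, wv_even, wv_even, psi_even]
      have e2 : W + (k - i) + i - (k + 1) = W - 1 := by omega
      have e3 : E' + 1 + 1 + 1 - 1 = E' + 1 + 1 := by omega
      rw [e2, e3, Nat.cast_sub (by omega)]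
      push_cast
      ring
    have hterm : ∀ i ∈ range k,
        (psi al al' be ga (E' + 1 + ev (2 * (k + 1) - 2 - 2 * i) + ev (2 * i) - ev (2 * (k + 1)))
          (W + wv (2 * (k + 1) - 2 - 2 * i) + wv (2 * i) - wv (2 * (k + 1))) (2 * i) +
        psi al al' be ga
          (E' + 1 + ev (2 * (k + 1) - 2 - (2 * i + 1)) + ev (2 * i + 1) - ev (2 * (k + 1)))
          (W + wv (2 * (k + 1) - 2 - (2 * i + 1)) + wv (2 * i + 1) - wv (2 * (k + 1)))
          (2 * i + 1))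
        = al (E' + 1 + 1) + al' (E' + 1 + 1) * ((W : ℝ) - 1) + be (E' + 1 + 1) := by
      intro i hi
      rw [mem_range] at hi
      rw [hev i (by omega)]
      have e2 : 2 * (k + 1) - 2 - (2 * i + 1) = 2 * (k - 1 - i) + 1 := by omega
      rw [e2, ev_odd, ev_odd, ev_even, wv_odd, wv_odd, wv_even, psi_odd]
      have e3 : E' + 1 + 0 + 0 - 1 = E' := by omega
      rw [e3, H2 E']
      have e4 : E' + 2 = E' + 1 + 1 := rfl
      rw [e4]
      ring
    rw [sum_congr rfl hterm, hev k le_rfl, sum_const, card_range, nsmul_eq_mul]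
    push_cast
    ring

/-- the flow of a line -/
noncomputable def FF {n : ℕ} (b : Fin (n + 1) → ℕ) (i : Fin n) : ℝ :=
  (((i.val : ℝ) + 1) * psi al al' be ga (∑ j, ev (b j)) (∑ j, wv (b j)) (b i.succ) +
    ((n : ℝ) - i.val) * psi al al' be ga (∑ j, ev (b j)) (∑ j, wv (b j)) (b i.castSucc)) /
    ((n : ℝ) + 1)

theorem FF_sum {n : ℕ} (b : Fin (n + 1) → ℕ) :
    ∑ i, FF al al' be ga b i = n / ((n : ℝ) + 1) *
      ∑ j, psi al al' be ga (∑ j, ev (b j)) (∑ j, wv (b j)) (b j) := by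
  unfold FF
  rw [← sum_div, weight_sum_fin
    (fun j => psi al al' be ga (∑ j, ev (b j)) (∑ j, wv (b j)) (b j))]
  ring

theorem psi_sum {k : ℕ} (b : Fin k → ℕ) (E W : ℕ) :
    ∑ j, psi al al' be ga E W (b j) =
      ((∑ j, ev (b j) : ℕ) : ℝ) * (al E + al' E * W) - be E * ((∑ j, wv (b j) : ℕ) : ℝ) +
      ga E * (((∑ j, b j / 2 : ℕ) : ℝ) - ((∑ j, wv (b j) : ℕ) : ℝ) + k -
        ((∑ j, ev (b j) : ℕ) : ℝ)) := by
  have h : ∀ v : ℕ, psi al al' be ga E W v = (ev v : ℝ) * (al E + al' E * W) -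
      be E * (wv v : ℝ) + ga E * (((v / 2 : ℕ) : ℝ) - (wv v : ℝ) + 1 - (ev v : ℝ)) := by
    intro v
    unfold psi ev wv
    split_ifs
    · push_cast; ring
    · push_cast; ring
  simp only [h]
  rw [sum_add_distrib, sum_sub_distrib, ← sum_mul, ← mul_sum, ← mul_sum, sum_sub_distrib,
    sum_add_distrib, sum_sub_distrib]
  push_cast
  simp

theorem half_sum {k : ℕ} (b : Fin k → ℕ) :
    ∑ j, b j + ∑ j, ev (b j) = 2 * ∑ j, b j / 2 + k := by
  have h : ∀ v : ℕ, v + ev v = 2 * (v / 2) + 1 := by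
    intro v; unfold ev; split_ifs <;> omega
  have h3 : ∑ j, (b j + ev (b j)) = ∑ j, (2 * (b j / 2) + 1) :=
    sum_congr rfl (fun j _ => h (b j))
  rw [sum_add_distrib, sum_add_distrib, ← mul_sum] at h3
  rw [h3]
  simp

theorem wv_le_half (v : ℕ) : wv v ≤ v / 2 := by unfold wv; split_ifs <;> omega

theorem FF_spl {n : ℕ} (x : Fin n → ℕ) (i : Fin n) :
    ∑ p ∈ adg (x i), FF al al' be ga (spl x i p.1 p.2) i =
    ∑ p ∈ adg (x i), psi al al' be ga ((∑ j, ev (x j)) + ev p.1 + ev p.2 - ev (x i))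
      ((∑ j, wv (x j)) + wv p.1 + wv p.2 - wv (x i)) p.2 := by
  set th : ℕ → ℕ → ℝ := fun u v =>
    psi al al' be ga ((∑ j, ev (x j)) + ev u + ev v - ev (x i))
      ((∑ j, wv (x j)) + wv u + wv v - wv (x i)) v with hth
  have h1 : ∀ p ∈ adg (x i), FF al al' be ga (spl x i p.1 p.2) i =
      ((i.val : ℝ) + 1) / ((n : ℝ) + 1) * th p.1 p.2 +
        ((n : ℝ) - i.val) / ((n : ℝ) + 1) * th p.2 p.1 := by
    intro p _
    have e1 := sum_spl (M := ℕ) ev x i p.1 p.2
    have e2 := sum_spl (M := ℕ) wv x i p.1 p.2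
    have e3 : ∑ j, ev (spl x i p.1 p.2 j) = (∑ j, ev (x j)) + ev p.1 + ev p.2 - ev (x i) := by
      omega
    have e4 : ∑ j, wv (spl x i p.1 p.2 j) = (∑ j, wv (x j)) + wv p.1 + wv p.2 - wv (x i) := by
      omega
    have e5 : (∑ j, ev (x j)) + ev p.2 + ev p.1 - ev (x i) =
      (∑ j, ev (x j)) + ev p.1 + ev p.2 - ev (x i) := by omega
    have e6 : (∑ j, wv (x j)) + wv p.2 + wv p.1 - wv (x i) =
      (∑ j, wv (x j)) + wv p.1 + wv p.2 - wv (x i) := by omega
    unfold FF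
    rw [spl_succ, spl_castSucc, e3, e4]
    simp only [hth]
    rw [e5, e6]
    ring
  rw [sum_congr rfl h1, sum_add_distrib, ← mul_sum, ← mul_sum,
    sum_adg_swap th (x i), ← add_mul]
  have hn : ((n : ℝ) + 1) ≠ 0 := by positivity
  have h2 : ((i.val : ℝ) + 1) / ((n : ℝ) + 1) + ((n : ℝ) - i.val) / ((n : ℝ) + 1) = 1 := by
    rw [← add_div, div_eq_one_iff_eq hn]; ring
  rw [h2, one_mul]

theorem FF_out {n : ℕ} (H1 : ∀ E, al' (E + 1) - be (E + 1) + ga (E + 1) = 0)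
    (H2 : ∀ E, ga E = be (E + 2)) (x : Fin n → ℕ) :
    ∑ i, ∑ p ∈ adg (x i), FF al al' be ga (spl x i p.1 p.2) i =
      ((∑ j, wv (x j) : ℕ) : ℝ) * (al ((∑ j, ev (x j)) + 1) +
        al' ((∑ j, ev (x j)) + 1) * (((∑ j, wv (x j) : ℕ) : ℝ) - 1)) +
      (((∑ j, x j / 2 : ℕ) : ℝ) - ((∑ j, wv (x j) : ℕ) : ℝ)) *
        (al ((∑ j, ev (x j)) + 1) + ga ((∑ j, ev (x j)) + 1) +
        al' ((∑ j, ev (x j)) + 1) * ((∑ j, wv (x j) : ℕ) : ℝ)) := by
  set E := ∑ j, ev (x j) with hE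
  set W := ∑ j, wv (x j) with hW
  set A := al (E + 1) + al' (E + 1) * ((W : ℝ) - 1) with hA
  set B := al (E + 1) + ga (E + 1) + al' (E + 1) * (W : ℝ) with hB
  have h1 : ∀ i, ∑ p ∈ adg (x i), FF al al' be ga (spl x i p.1 p.2) i =
      (wv (x i) : ℝ) * A + (((x i / 2 : ℕ) : ℝ) - (wv (x i) : ℝ)) * B := by
    intro i
    rw [FF_spl]
    rw [← hE, ← hW]
    rcases Nat.even_or_odd' (x i) with ⟨w, hw | hw⟩
    · have hEi : 1 ≤ E := by
        have : ev (x i) ≤ E := Finset.single_le_sum (f := fun j => ev (x j))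
          (fun j _ => Nat.zero_le _) (mem_univ i)
        rw [hw, ev_even] at this
        exact this
      have hWi : w ≤ W := by
        have : wv (x i) ≤ W := Finset.single_le_sum (f := fun j => wv (x j))
          (fun j _ => Nat.zero_le _) (mem_univ i)
        rw [hw, wv_even] at this
        exact this
      rw [hw, Phi_even al al' be ga H2 E W w hEi hWi, wv_even]
      have : 2 * w / 2 = w := by omega
      rw [this, hA]
      ring
    · rw [hw, Phi_odd al al' be ga H1 E W w, wv_odd]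
      have : (2 * w + 1) / 2 = w := by omega
      rw [this, hB]
      push_cast
      ring
  simp only [h1]
  rw [sum_add_distrib, ← sum_mul, ← sum_mul, sum_sub_distrib]
  rw [hW]
  push_cast
  ring

end

end Pool.Agent.IndWidth
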