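import Mathlib
import Pool.Agent.Helper646.IndWidth.Lists

set_option autoImplicit false

open Finset

namespace Pool.Agent.IndWidth

theorem AA_rec (s t : ℕ) (h1 : AA (s + 3 + t + 2) s) (h2 : AA (s + 3 + t + 1) (s + 1))
    (h3 : AA (s + 3 + t + 1) s) (h4 : AA (s + 3 + t) (s + 1)) : AA (s + 3 + t + 2) (s + 1) := by
  intro S hS
  have hSD : Sh (s + 3 + t + 2) s (SD S) := hS.SD
  have hSM : Sh (s + 3 + t + 1) (s + 1) (SM S) := Sh.SM hS
  have hSMD : Sh (s + 3 + t + 1) s (SD (SM S)) := hSM.SD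
  have hSMM : Sh (s + 3 + t) (s + 1) (SM (SM S)) := Sh.SM hSM
  have c1 : S.card = (SD S).card + (SM S).card := card_SD_SM hS.ne_nil
  have c2 : (SM S).card = (SD (SM S)).card + (SM (SM S)).card := card_SD_SM hSM.ne_nil
  have hN : Sh (s + 3 + t) (s + 1 + 1) (NN S) := Sh.NN hS
  have c3 : (NN S).card = (SD (NN S)).card + (SM (NN S)).card := card_SD_SM hN.ne_nil
  have hNM : Sh (s + 2 + t) (s + 1 + 1) (NN (SM S)) := by
    apply Sh.NN
    have : s + 2 + t + 2 = s + 3 + t + 1 := by ring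
    rw [this]; exact hSM
  have c4 : (NN (SM S)).card = (SD (NN (SM S))).card + (SM (NN (SM S))).card :=
    card_SD_SM hNM.ne_nil
  have i1 : (NN (SD S)).card ≤ (SD (NN S)).card := card_le_card (NN_SD_subset S)
  have i2 : (SM (SM S)).card ≤ (SD (NN S)).card := card_le_card (SM_SM_subset hS.ne_nil)
  have i3 : (NN (SM S)).card ≤ (SM (NN S)).card := card_le_card (NN_SM_subset S)
  have i4 : (NN (SD (SM S))).card ≤ (SD (NN (SM S))).card := card_le_card (NN_SD_subset _)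
  have i5 : (NN (SM (SM S))).card ≤ (SM (NN (SM S))).card := card_le_card (NN_SM_subset _)
  have j1 := h1 _ hSD
  have j2 := h2 _ hSM
  have j3 := h3 _ hSMD
  have j4 := h4 _ hSMM
  -- real variables
  set D : ℝ := ((SD S).card : ℝ) with hD
  set MD : ℝ := ((SD (SM S)).card : ℝ) with hMD
  set MM : ℝ := ((SM (SM S)).card : ℝ) with hMM
  set nD : ℝ := ((NN (SD S)).card : ℝ) with hnD
  set nM : ℝ := ((NN (SM S)).card : ℝ) with hnM
  set nMD : ℝ := ((NN (SD (SM S))).card : ℝ) with hnMD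
  set nMM : ℝ := ((NN (SM (SM S))).card : ℝ) with hnMM
  set ND : ℝ := ((SD (NN S)).card : ℝ) with hND
  set NM : ℝ := ((SM (NN S)).card : ℝ) with hNM'
  have e1 : (S.card : ℝ) = D + (MD + MM) := by
    rw [c1, c2]; push_cast; rfl
  have e2 : ((SM S).card : ℝ) = MD + MM := by rw [c2]; push_cast; rfl
  have e3 : ((NN S).card : ℝ) = ND + NM := by rw [c3]; push_cast; rfl
  have k1 : nD ≤ ND := Nat.cast_le.2 i1
  have k2 : MM ≤ ND := Nat.cast_le.2 i2
  have k3 : nM ≤ NM := Nat.cast_le.2 i3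
  have k4 : nMD + nMM ≤ nM := by
    have : (NN (SD (SM S))).card + (NN (SM (SM S))).card ≤ (NN (SM S)).card := by omega
    rw [hnMD, hnMM, hnM, ← Nat.cast_add]
    exact Nat.cast_le.2 this
  have hMM0 : 0 ≤ MM := Nat.cast_nonneg _
  have hMD0 : 0 ≤ MD := Nat.cast_nonneg _
  have hnM0 : 0 ≤ nM := Nat.cast_nonneg _
  rw [e1, e3]
  rw [e2] at j2
  push_cast at j1 j2 j3 j4 ⊢
  have hs : (0 : ℝ) ≤ s := Nat.cast_nonneg _
  have ht : (0 : ℝ) ≤ t := Nat.cast_nonneg _
  generalize (s : ℝ) = x at *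
  generalize (t : ℝ) = y at *
  clear_value D MD MM nD nM nMD nMM ND NM
  clear hN hNM hSMM hSMD hSM hSD hS h1 h2 h3 h4 c1 c2 c3 c4 i1 i2 i3 i4 i5 e1 e2 e3
  -- m = x + 5 + y, r = x + 1, L = 2 x + 6 + y
  have f1 : (x + 5 + y) * (x + 4 + y) * D + (3 * x + 7 + y) * MM ≤
      (2 * x + 6 + y) * (x + 2) * ND := by
    have : (2 * x + 5 + y) * (x + 1) * nD ≤ (2 * x + 5 + y) * (x + 1) * ND :=
      mul_le_mul_of_nonneg_left k1 (by positivity)
    have h' : (3 * x + 7 + y) * MM ≤ (3 * x + 7 + y) * ND :=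
      mul_le_mul_of_nonneg_left k2 (by positivity)
    nlinarith
  have fB : (x + 2) * ((x + 4 + y) * (x + 3 + y)) * MD + (x + 1) * ((x + 3 + y) * (x + 2 + y)) * MM ≤
      (2 * x + 4 + y) * (x + 1) * (x + 2) * nM := by
    have a1 := mul_le_mul_of_nonneg_left j3 (by positivity : (0 : ℝ) ≤ x + 2)
    have a2 := mul_le_mul_of_nonneg_left j4 (by positivity : (0 : ℝ) ≤ x + 1)
    have a3 : (2 * x + 4 + y) * (x + 1) * (x + 2) * (nMD + nMM) ≤
        (2 * x + 4 + y) * (x + 1) * (x + 2) * nM :=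
      mul_le_mul_of_nonneg_left k4 (by positivity)
    nlinarith
  have f2 : (x + 5 + y) * (x + 4 + y) * MD +
      ((x + 5 + y) * (x + 4 + y) - (3 * x + 7 + y)) * MM ≤ (2 * x + 6 + y) * (x + 2) * nM := by
    have hK : 0 < (2 * x + 5 + y) * (x + 3 + y) * (3 * x + 6 + y) := by positivity
    have hqp : 0 ≤ (2 * x + 6 + y) * (x + 3 + y) * (3 * x + 6 + y) -
        (3 * x + 7 + y) * (2 * x + 4 + y) * (x + 1) := by
      have : (2 * x + 6 + y) * (x + 3 + y) * (3 * x + 6 + y) -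
        (3 * x + 7 + y) * (2 * x + 4 + y) * (x + 1) =
        y^3 + 5 * x * y^2 + 14 * y^2 + x^2 * (6 * y) + 40 * x * y + 61 * y + 16 * x ^ 2 + 80 * x
          + 80 + (x^2*y*2 + y^2*x*1 + x*y*0 + 0) - (x^2*y*2 + y^2*x*1) + ((2 * x + 6 + y) * (x + 3 + y) * (3 * x + 6 + y) -
        (3 * x + 7 + y) * (2 * x + 4 + y) * (x + 1) - (y^3 + 5 * x * y^2 + 14 * y^2 + x^2 * (6 * y) + 40 * x * y + 61 * y + 16 * x ^ 2 + 80 * x
          + 80)) := by ring
      nlinarith [mul_nonneg hs ht, mul_nonneg hs hs, mul_nonneg ht ht,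
        mul_nonneg (mul_nonneg hs hs) ht, mul_nonneg (mul_nonneg ht ht) hs,
        mul_nonneg (mul_nonneg ht ht) ht, mul_nonneg (mul_nonneg hs hs) hs]
    have a1 : (x + 4 + y) * (x + 3 + y) * (MD + MM) ≤ (2 * x + 5 + y) * (x + 2) * nM := by
      nlinarith
    have a2 := mul_le_mul_of_nonneg_left a1 hqp
    have a3 := mul_le_mul_of_nonneg_left fB
      (by positivity : (0 : ℝ) ≤ (2 * x + 5 + y) * (3 * x + 7 + y))
    have a4 : ((2 * x + 5 + y) * (x + 3 + y) * (3 * x + 6 + y)) *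
        ((x + 5 + y) * (x + 4 + y) * MD +
        ((x + 5 + y) * (x + 4 + y) - (3 * x + 7 + y)) * MM) ≤
        ((2 * x + 5 + y) * (x + 3 + y) * (3 * x + 6 + y)) * ((2 * x + 6 + y) * (x + 2) * nM) := by
      calc _ = ((2 * x + 6 + y) * (x + 3 + y) * (3 * x + 6 + y) -
        (3 * x + 7 + y) * (2 * x + 4 + y) * (x + 1)) *
          ((x + 4 + y) * (x + 3 + y) * (MD + MM)) +
          (2 * x + 5 + y) * (3 * x + 7 + y) *
          ((x + 2) * ((x + 4 + y) * (x + 3 + y)) * MD +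
            (x + 1) * ((x + 3 + y) * (x + 2 + y)) * MM) := by ring
        _ ≤ _ := add_le_add a2 a3
        _ = _ := by ring
    exact le_of_mul_le_mul_left a4 hK
  have f3 : (2 * x + 6 + y) * (x + 2) * nM ≤ (2 * x + 6 + y) * (x + 2) * NM :=
    mul_le_mul_of_nonneg_left k3 (by positivity)
  nlinarith

/-- all lines from the two base lines -/
theorem AA_all (hb2 : ∀ r, AA (r + 2) r) (hb3 : ∀ r, AA (r + 3) r) :
    ∀ N m r : ℕ, m + r ≤ N → r + 2 ≤ m → AA m r := by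
  intro N
  induction N with
  | zero => intro m r h1 h2; omega
  | succ N ih =>
    intro m r h1 h2
    rcases Nat.eq_zero_or_pos r with h | h
    · subst h; exact AA_zero m h2
    · by_cases h3 : m = r + 2
      · rw [h3]; exact hb2 r
      by_cases h4 : m = r + 3
      · rw [h4]; exact hb3 r
      obtain ⟨s, rfl⟩ : ∃ s, r = s + 1 := ⟨r - 1, by omega⟩
      obtain ⟨t, rfl⟩ : ∃ t, m = s + 3 + t + 2 := ⟨m - (s + 5), by omega⟩
      exact AA_rec s t (ih _ _ (by omega) (by omega)) (ih _ _ (by omega) (by omega))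
        (ih _ _ (by omega) (by omega)) (ih _ _ (by omega) (by omega))

end Pool.Agent.IndWidth
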