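import Mathlib
import Pool.Agent.Helper646.IndWidth.Lines
import Pool.Agent.Helper646.IndWidth.Rec

set_option autoImplicit false

open Finset

namespace Pool.Agent.IndWidth

theorem wv_sum_le {k : ℕ} (b : Fin k → ℕ) : ∑ j, wv (b j) ≤ ∑ j, b j / 2 :=
  sum_le_sum (fun j _ => wv_le_half (b j))

theorem ev_sum_le {k : ℕ} (b : Fin k → ℕ) : ∑ j, ev (b j) ≤ k := by
  calc ∑ j, ev (b j) ≤ ∑ _j : Fin k, 1 := by
        apply sum_le_sum
        intro j _
        unfold ev
        split_ifs <;> omega
    _ = k := by simp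

theorem wv_sum_eq_zero {k : ℕ} (b : Fin k → ℕ) (h : ∑ j, ev (b j) = 0) :
    ∑ j, wv (b j) = 0 := by
  rw [sum_eq_zero_iff] at h
  apply sum_eq_zero
  intro j hj
  have := h j hj
  unfold ev at this
  unfold wv
  split_ifs at this with h2
  rw [if_neg h2]

theorem wv_le_sum {k : ℕ} (b : Fin k → ℕ) (j : Fin k) : wv (b j) ≤ ∑ j, wv (b j) :=
  Finset.single_le_sum (f := fun j => wv (b j)) (fun j _ => Nat.zero_le _) (mem_univ j)

theorem FF_nonneg (al al' be ga : ℕ → ℝ) {n : ℕ} (b : Fin (n + 1) → ℕ)
    (h : ∀ j, 0 ≤ psi al al' be ga (∑ j, ev (b j)) (∑ j, wv (b j)) (b j)) (i : Fin n) :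
    0 ≤ FF al al' be ga b i := by
  unfold FF
  have h1 := h i.succ
  have h2 := h i.castSucc
  have h3 : (0 : ℝ) ≤ (n : ℝ) - i.val := by
    have : (i.val : ℝ) ≤ n := by exact_mod_cast i.isLt.le
    linarith
  positivity

theorem AA_line1 (r : ℕ) : AA (r + 2) r := by
  intro S hS
  set n := r + 1 with hn
  set al : ℕ → ℝ := fun E => 2 / (E : ℝ) with hal
  set z : ℕ → ℝ := fun _ => 0 with hz
  have key : (S.card : ℝ) ≤ (n / ((n : ℝ) + 1) * 2) * ((NN S).card : ℝ) := by
    apply base_ineq (n := n) (m := r + 2) (n / ((n : ℝ) + 1) * 2) (by positivity)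
      (fun b i => FF al z z z b i)
    · intro b _ i
      apply FF_nonneg
      intro j
      unfold psi
      split_ifs
      · simp only [hz, hal]
        have : (0 : ℝ) ≤ 2 / ((∑ j, ev (b j) : ℕ) : ℝ) := by positivity
        simpa using this
      · simp [hz]
    · intro b hb
      rw [FF_sum, psi_sum]
      have h1 := half_sum b
      simp only [hz, hal]
      have h2 : 0 < ∑ j, ev (b j) := by omega
      have h3 : (0 : ℝ) < ((∑ j, ev (b j) : ℕ) : ℝ) := by exact_mod_cast h2
      field_simp
      ring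
    · intro x hx
      rw [FF_out al z z z (by intro E; simp [hz]) (by intro E; simp [hz])]
      have h1 := half_sum x
      simp only [hz, hal]
      have h2 : 2 * ∑ j, x j / 2 = ∑ j, ev (x j) + 1 := by omega
      have h3 : 2 * ((∑ j, x j / 2 : ℕ) : ℝ) = ((∑ j, ev (x j) : ℕ) : ℝ) + 1 := by
        exact_mod_cast h2
      push_cast at h3 ⊢
      have h4 : (0 : ℝ) < (∑ j, (ev (x j) : ℝ)) + 1 := by
        rw [← h3]
        have : (0 : ℝ) < ((∑ j, x j / 2 : ℕ) : ℝ) := by
          have h5 : 0 < ∑ j, x j / 2 := by omega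
          exact_mod_cast h5
        push_cast at this
        linarith
      field_simp
      linarith
    · exact hS
  have h2 : (((r + 2 : ℕ)) : ℝ) * ((((r + 2 : ℕ)) : ℝ) - 1) * (n / ((n : ℝ) + 1) * 2) =
      ((((r + 2 : ℕ)) : ℝ) + r) * ((r : ℝ) + 1) := by
    rw [hn]; push_cast
    field_simp
    ring
  calc (((r + 2 : ℕ)) : ℝ) * ((((r + 2 : ℕ)) : ℝ) - 1) * (S.card : ℝ)
      ≤ (((r + 2 : ℕ)) : ℝ) * ((((r + 2 : ℕ)) : ℝ) - 1) *
        ((n / ((n : ℝ) + 1) * 2) * ((NN S).card : ℝ)) := by
        apply mul_le_mul_of_nonneg_left key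
        push_cast
        have : (0 : ℝ) ≤ r := Nat.cast_nonneg r
        nlinarith
    _ = _ := by rw [← mul_assoc, h2]

theorem AA_line2 (r : ℕ) : AA (r + 3) r := by
  intro S hS
  set n := r + 1 with hn
  set M : ℝ := (r : ℝ) + 3 with hM
  have hM0 : 0 < M := by positivity
  set al : ℕ → ℝ := fun E => 2 * (M - 1) / (M * ((E : ℝ) + 1)) with hal
  set al' : ℕ → ℝ := fun E => 4 / (M * ((E : ℝ) + 1) * ((E : ℝ) - 1)) with hal'
  set ga : ℕ → ℝ := fun E => 2 / (M * ((E : ℝ) + 1)) with hga
  set be : ℕ → ℝ := fun E => if E = 1 then ga 1 else 2 / (M * ((E : ℝ) - 1)) with hbe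
  have H1 : ∀ E, al' (E + 1) - be (E + 1) + ga (E + 1) = 0 := by
    intro E
    rcases Nat.eq_zero_or_pos E with rfl | hE
    · simp [hal', hbe]
    · simp only [hal', hbe, hga]
      rw [if_neg (by omega)]
      push_cast
      have hE' : (0 : ℝ) < E := by exact_mod_cast hE
      have e1 : (E : ℝ) + 1 - 1 = E := by ring
      rw [e1]
      field_simp
      ring
  have H2 : ∀ E, ga E = be (E + 2) := by
    intro E
    simp only [hbe, hga]
    rw [if_neg (by omega)]
    push_cast
    congr 2
    ring
  have key : (S.card : ℝ) ≤ (n / ((n : ℝ) + 1) * ((2 * M - 3) / M)) * ((NN S).card : ℝ) := by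
    have hρ : 0 ≤ n / ((n : ℝ) + 1) * ((2 * M - 3) / M) := by
      have : 0 ≤ 2 * M - 3 := by rw [hM]; have : (0 : ℝ) ≤ r := Nat.cast_nonneg r; linarith
      positivity
    apply base_ineq (n := n) (m := r + 3) _ hρ (fun b i => FF al al' be ga b i)
    · intro b hb i
      apply FF_nonneg
      intro j
      have h1 := half_sum b
      have hE : ∑ j, ev (b j) = 2 * ∑ j, b j / 2 + 1 := by omega
      have hEn := ev_sum_le b
      have hW := wv_sum_le b
      have hj := wv_le_sum b j
      have hEpos : 0 < ∑ j, ev (b j) := by omega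
      set E := ∑ j, ev (b j) with hEdef
      set W := ∑ j, wv (b j) with hWdef
      have hEr : (1 : ℝ) ≤ E := by exact_mod_cast hEpos
      rcases Nat.even_or_odd' (b j) with ⟨w, hw | hw⟩
      · rw [hw, psi_even]
        rw [hw, wv_even] at hj
        have hjr : (w : ℝ) ≤ W := by exact_mod_cast hj
        obtain ⟨E', hE'⟩ : ∃ k, E = k + 1 := ⟨E - 1, by omega⟩
        have h3 := H1 E'
        rw [← hE'] at h3
        have hbe0 : 0 ≤ be E := by
          simp only [hbe, hga]
          split_ifs with h4
          · positivity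
          · have : 0 ≤ (E : ℝ) - 1 := by linarith
            positivity
        have h5 : be E * w ≤ be E * W := mul_le_mul_of_nonneg_left hjr hbe0
        have h6 : al E + al' E * W - be E * W = al E - ga E * W := by
          linear_combination (W : ℝ) * h3
        have h7 : 0 ≤ al E - ga E * W := by
          simp only [hal, hga]
          have h8 : 2 * (M - 1) / (M * ((E : ℝ) + 1)) - 2 / (M * ((E : ℝ) + 1)) * W =
              (2 * (M - 1 - W)) / (M * ((E : ℝ) + 1)) := by ring
          rw [h8]
          have h9 : (W : ℝ) ≤ M - 1 := by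
            have : W ≤ r + 2 := by omega
            have h10 : (W : ℝ) ≤ ((r + 2 : ℕ) : ℝ) := by exact_mod_cast this
            rw [hM]; push_cast at h10; linarith
          have : 0 ≤ M - 1 - W := by linarith
          positivity
        linarith
      · rw [hw, psi_odd]
        simp only [hga]
        positivity
    · intro b hb
      rw [FF_sum, psi_sum]
      congr 1
      have h1 := half_sum b
      have hE : ∑ j, ev (b j) = 2 * ∑ j, b j / 2 + 1 := by omega
      have hW := wv_sum_le b
      generalize hEg : ∑ j, ev (b j) = E at *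
      generalize hWg : ∑ j, wv (b j) = W at *
      generalize hHg : ∑ j, b j / 2 = H at *
      subst hE
      rcases Nat.eq_zero_or_pos H with rfl | hH
      · have hW0 : W = 0 := by omega
        subst hW0
        simp only [hal, hal', hbe, hga]
        push_cast
        simp only [mul_zero, add_zero, sub_zero, one_mul, zero_add]
        rw [hn, hM]
        push_cast
        field_simp
        ring
      · have hH' : (0 : ℝ) < H := by exact_mod_cast hH
        simp only [hal, hal', hbe, hga]
        rw [if_neg (by omega)]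
        push_cast
        have e1 : 2 * (H : ℝ) + 1 - 1 = 2 * H := by ring
        have e2 : 2 * (H : ℝ) + 1 + 1 = 2 * (H + 1) := by ring
        rw [e1, e2]
        rw [hn, hM]
        push_cast
        field_simp
        ring
    · intro x hx
      rw [FF_out al al' be ga H1 H2]
      have h1 := half_sum x
      have hH : 2 * ∑ j, x j / 2 = ∑ j, ev (x j) + 2 := by omega
      have hW := wv_sum_le x
      have hW0 := wv_sum_eq_zero x
      generalize hEg : ∑ j, ev (x j) = E at *
      generalize hWg : ∑ j, wv (x j) = W at *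
      generalize hHg : ∑ j, x j / 2 = H at *
      obtain ⟨k, rfl⟩ : ∃ k, H = k + 1 := ⟨H - 1, by omega⟩
      have hE2 : E = 2 * k := by omega
      subst hE2
      rcases Nat.eq_zero_or_pos k with rfl | hk
      · have : W = 0 := hW0 (by simp)
        subst this
        simp only [hal, hal', hga]
        push_cast
        field_simp
        ring
      · have hk' : (0 : ℝ) < k := by exact_mod_cast hk
        simp only [hal, hal', hga]
        push_cast
        have e1 : 2 * (k : ℝ) + 1 - 1 = 2 * k := by ring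
        have e2 : 2 * (k : ℝ) + 1 + 1 = 2 * (k + 1) := by ring
        rw [e1, e2]
        field_simp
        ring
    · exact hS
  have h2 : (((r + 3 : ℕ)) : ℝ) * ((((r + 3 : ℕ)) : ℝ) - 1) *
      (n / ((n : ℝ) + 1) * ((2 * M - 3) / M)) =
      ((((r + 3 : ℕ)) : ℝ) + r) * ((r : ℝ) + 1) := by
    rw [hn, hM]; push_cast
    field_simp
    ring
  calc (((r + 3 : ℕ)) : ℝ) * ((((r + 3 : ℕ)) : ℝ) - 1) * (S.card : ℝ)
      ≤ (((r + 3 : ℕ)) : ℝ) * ((((r + 3 : ℕ)) : ℝ) - 1) *
        ((n / ((n : ℝ) + 1) * ((2 * M - 3) / M)) * ((NN S).card : ℝ)) := by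
        apply mul_le_mul_of_nonneg_left key
        push_cast
        have : (0 : ℝ) ≤ r := Nat.cast_nonneg r
        nlinarith
    _ = _ := by rw [← mul_assoc, h2]

/-- the normalised matching inequality for lists -/
theorem AA_holds {m r : ℕ} (h : r + 2 ≤ m) : AA m r :=
  AA_all AA_line1 AA_line2 (m + r) m r le_rfl h

end Pool.Agent.IndWidth
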