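import Mathlib
import Pool.Agent.Helper646.IndWidth.TwoLines

set_option autoImplicit false

open Finset

namespace Pool.Agent.IndWidth

/-- normalised matching between two finite sets -/
def NMP {α β : Type} (X : Finset α) (Y : Finset β) (rel : α → β → Prop) : Prop :=
  ∀ S ⊆ X, ∀ T ⊆ Y, (∀ x ∈ S, ∀ y ∈ Y, rel x y → y ∈ T) → S.card * Y.card ≤ T.card * X.card

theorem NMP.transfer {α β α' β' : Type} [DecidableEq α] [DecidableEq β] [DecidableEq α']
    [DecidableEq β'] {X : Finset α} {Y : Finset β}
    {X' : Finset α'} {Y' : Finset β'} {rel : α → β → Prop} {rel' : α' → β' → Prop}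
    (f : α → α') (g : β → β') (hf : Set.InjOn f X) (hg : Set.InjOn g Y) (hfX : X.image f = X')
    (hgY : Y.image g = Y') (hrel : ∀ x ∈ X, ∀ y ∈ Y, rel x y → rel' (f x) (g y))
    (h : NMP X Y rel) : NMP X' Y' rel' := by
  intro S' hS' T' hT' hcl
  set S := X.filter (fun x => f x ∈ S') with hS
  set T := Y.filter (fun y => g y ∈ T') with hT
  have hSX : S ⊆ X := filter_subset _ _
  have hTY : T ⊆ Y := filter_subset _ _
  have h1 := h S hSX T hTY (by
    intro x hx y hy hxy
    rw [hS, mem_filter] at hx
    rw [hT, mem_filter]
    refine ⟨hy, hcl _ hx.2 _ ?_ (hrel x hx.1 y hy hxy)⟩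
    rw [← hgY]
    exact mem_image_of_mem g hy)
  have c1 : S.image f = S' := by
    ext z
    rw [mem_image]
    constructor
    · rintro ⟨x, hx, rfl⟩
      exact (mem_filter.1 hx).2
    · intro hz
      have := hS' hz
      rw [← hfX, mem_image] at this
      obtain ⟨x, hx, rfl⟩ := this
      exact ⟨x, mem_filter.2 ⟨hx, hz⟩, rfl⟩
  have c2 : T.image g = T' := by
    ext z
    rw [mem_image]
    constructor
    · rintro ⟨x, hx, rfl⟩
      exact (mem_filter.1 hx).2
    · intro hz
      have := hT' hz
      rw [← hgY, mem_image] at this
      obtain ⟨x, hx, rfl⟩ := this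
      exact ⟨x, mem_filter.2 ⟨hx, hz⟩, rfl⟩
  have d1 : S'.card = S.card := by
    rw [← c1, card_image_of_injOn (hf.mono (by exact_mod_cast hSX))]
  have d2 : T'.card = T.card := by
    rw [← c2, card_image_of_injOn (hg.mono (by exact_mod_cast hTY))]
  have d3 : X'.card = X.card := by rw [← hfX, card_image_of_injOn hf]
  have d4 : Y'.card = Y.card := by rw [← hgY, card_image_of_injOn hg]
  rw [d1, d2, d3, d4]
  exact h1

/-- all lists of length `r+1` and sum `m` -/
def WW : ℕ → ℕ → Finset (List ℕ)
  | 0, m => {[m]}
  | r + 1, 0 => (WW r 0).image (fun t => 0 :: t)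
  | r + 1, m + 1 => (WW r (m + 1)).image (fun t => 0 :: t) ∪ (WW (r + 1) m).image inc
termination_by r m => (r, m)

theorem mem_WW (r m : ℕ) : ∀ x : List ℕ, x ∈ WW r m ↔ x.length = r + 1 ∧ x.sum = m := by
  induction r generalizing m with
  | zero =>
    intro x
    rw [WW, mem_singleton]
    constructor
    · rintro rfl; simp
    · rintro ⟨h1, h2⟩
      rw [zero_add, List.length_eq_one_iff] at h1
      obtain ⟨a, rfl⟩ := h1
      simp at h2
      rw [h2]
  | succ r ih =>
    induction m with
    | zero =>
      intro x
      rw [WW, mem_image]
      constructor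
      · rintro ⟨t, ht, rfl⟩
        rw [ih] at ht
        simp [ht]
      · rintro ⟨h1, h2⟩
        cases x with
        | nil => simp at h1
        | cons a t =>
          simp at h1 h2
          refine ⟨t, (ih 0 t).2 ⟨h1, by simpa using h2.2⟩, ?_⟩
          rw [h2.1]
    | succ m ihm =>
      intro x
      rw [WW, mem_union, mem_image, mem_image]
      constructor
      · rintro (⟨t, ht, rfl⟩ | ⟨t, ht, rfl⟩)
        · rw [ih] at ht
          simp [ht]
        · rw [ihm] at ht
          cases t with
          | nil => simp at ht
          | cons a t =>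
            simp only [inc, List.length_cons, List.sum_cons] at ht ⊢
            omega
      · rintro ⟨h1, h2⟩
        cases x with
        | nil => simp at h1
        | cons a t =>
          simp only [List.length_cons, List.sum_cons] at h1 h2
          cases a with
          | zero =>
            left
            exact ⟨t, (ih _ t).2 ⟨by omega, by omega⟩, rfl⟩
          | succ a =>
            right
            refine ⟨a :: t, (ihm _).2 ⟨?_, ?_⟩, rfl⟩
            · simp only [List.length_cons]; omega
            · simp only [List.sum_cons]; omega

theorem card_WW (r m : ℕ) : (WW r m).card = (m + r).choose r := by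
  induction r generalizing m with
  | zero => rw [WW]; simp
  | succ r ih =>
    induction m with
    | zero =>
      rw [WW, card_image_of_injective _ (fun _ _ h => (List.cons.inj h).2), ih]
      simp
    | succ m ihm =>
      rw [WW, card_union_of_disjoint, card_image_of_injective _ (fun _ _ h => (List.cons.inj h).2),
        card_image_of_injective _ inc_injective, ih, ihm]
      · have : m + 1 + (r + 1) = (m + 1 + r) + 1 := by ring
        rw [this, Nat.choose_succ_succ]
        congr 2
        ring
      · rw [disjoint_left]
        intro x hx hx'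
        rw [mem_image] at hx hx'
        obtain ⟨t, _, rfl⟩ := hx
        obtain ⟨t', _, h3⟩ := hx'
        cases t' with
        | nil => simp [inc] at h3
        | cons a t'' => simp [inc] at h3

theorem ratio (k r : ℕ) : (k + 2) * (k + 1) * (k + 2 + r).choose r =
    (k + 2 + r) * (r + 1) * (k + (r + 1)).choose (r + 1) := by
  have h1 : (k + 2 + r).choose r * (k + 2).factorial * r.factorial = (k + 2 + r).factorial := by
    have := Nat.add_choose_mul_factorial_mul_factorial (k + 2) r
    exact this
  have h2 : (k + (r + 1)).choose (r + 1) * k.factorial * (r + 1).factorial =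
      (k + (r + 1)).factorial := by
    have := Nat.add_choose_mul_factorial_mul_factorial k (r + 1)
    exact this
  have h3 : (k + 2).factorial = (k + 2) * ((k + 1) * k.factorial) := by
    rw [Nat.factorial_succ, Nat.factorial_succ]
  have h4 : (r + 1).factorial = (r + 1) * r.factorial := Nat.factorial_succ r
  have h5 : (k + 2 + r).factorial = (k + 2 + r) * (k + (r + 1)).factorial := by
    have : k + 2 + r = (k + (r + 1)) + 1 := by ring
    rw [this, Nat.factorial_succ]
  have h6 : 0 < k.factorial * r.factorial := Nat.mul_pos (Nat.factorial_pos k) (Nat.factorial_pos r)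
  apply Nat.eq_of_mul_eq_mul_right h6
  calc (k + 2) * (k + 1) * (k + 2 + r).choose r * (k.factorial * r.factorial)
      = (k + 2 + r).choose r * (k + 2).factorial * r.factorial := by rw [h3]; ring
    _ = (k + 2 + r) * (k + (r + 1)).factorial := by rw [h1, h5]
    _ = (k + 2 + r) * ((k + (r + 1)).choose (r + 1) * k.factorial * (r + 1).factorial) := by
      rw [h2]
    _ = _ := by rw [h4]; ring

/-- normalised matching for lists -/
theorem NMP_lists (k r : ℕ) (h : r ≤ k) :
    NMP (WW r (k + 2)) (WW (r + 1) k) (fun x y => y ∈ nb x) := by
  intro S hS T hT hcl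
  have hSh : Sh (k + 2) r S := fun x hx => (mem_WW _ _ _).1 (hS hx)
  have h1 := AA_holds (m := k + 2) (r := r) (by omega) S hSh
  have h2 : NN S ⊆ T := by
    intro y hy
    rw [mem_NN] at hy
    obtain ⟨x, hx, hxy⟩ := hy
    refine hcl x hx y ?_ hxy
    rw [mem_WW]
    have := hSh x hx
    have := nb_length_sum hxy
    omega
  have h3 : ((NN S).card : ℝ) ≤ T.card := by exact_mod_cast card_le_card h2
  have h4 : (((k + 2) * (k + 1) * (WW r (k + 2)).card : ℕ) : ℝ) =
      (((k + 2 + r) * (r + 1) * (WW (r + 1) k).card : ℕ) : ℝ) := by
    rw [card_WW, card_WW, ratio]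
  push_cast at h1 h4
  have h5 : (0 : ℝ) < ((k : ℝ) + 2 + r) * ((r : ℝ) + 1) := by positivity
  have h6 : ((k : ℝ) + 2 + r) * ((r : ℝ) + 1) * ((S.card : ℝ) * (WW (r + 1) k).card) ≤
      ((k : ℝ) + 2 + r) * ((r : ℝ) + 1) * ((T.card : ℝ) * (WW r (k + 2)).card) := by
    calc ((k : ℝ) + 2 + r) * ((r : ℝ) + 1) * ((S.card : ℝ) * (WW (r + 1) k).card)
        = (S.card : ℝ) * (((k : ℝ) + 2 + r) * ((r : ℝ) + 1) * (WW (r + 1) k).card) := by ring
      _ = (((k : ℝ) + 2) * ((k : ℝ) + 1) * (S.card : ℝ)) * (WW r (k + 2)).card := by
          rw [← h4]; ring
      _ ≤ (((k : ℝ) + 2 + r) * ((r : ℝ) + 1) * (T.card : ℝ)) * (WW r (k + 2)).card := by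
          apply mul_le_mul_of_nonneg_right _ (Nat.cast_nonneg _)
          have e1 : ((k : ℝ) + 2) * ((k : ℝ) + 2 - 1) * (S.card : ℝ) =
            ((k : ℝ) + 2) * ((k : ℝ) + 1) * (S.card : ℝ) := by ring
          rw [← e1]
          refine h1.trans ?_
          exact mul_le_mul_of_nonneg_left h3 h5.le
      _ = _ := by ring
  have h7 := le_of_mul_le_mul_left h6 h5
  exact_mod_cast h7

/-- the positions of the dimers -/
def pos : ℕ → List ℕ → Finset ℕ
  | _, [] => ∅
  | _, [_] => ∅
  | k, a :: b :: t => insert (k + a) (pos (k + a + 2) (b :: t))

theorem pos_inc (k : ℕ) (x : List ℕ) : pos k (inc x) = pos (k + 1) x := by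
  cases x with
  | nil => simp [inc, pos]
  | cons a t =>
    cases t with
    | nil => simp [inc, pos]
    | cons b t =>
      show pos k ((a + 1) :: b :: t) = pos (k + 1) (a :: b :: t)
      rw [pos, pos]
      have e1 : k + (a + 1) = k + 1 + a := by ring
      rw [e1]

theorem pos_zero_cons (k : ℕ) {x : List ℕ} (hx : x ≠ []) :
    pos k (0 :: x) = insert k (pos (k + 2) x) := by
  cases x with
  | nil => exact absurd rfl hx
  | cons b t => rw [pos]; rfl

theorem pos_bound (x : List ℕ) : ∀ k i : ℕ, i ∈ pos k x →
    k ≤ i ∧ i + 2 ≤ k + x.sum + 2 * (x.length - 1) := by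
  induction x with
  | nil => intro k i h; simp [pos] at h
  | cons a t ih =>
    intro k i h
    cases t with
    | nil => simp [pos] at h
    | cons b t =>
      rw [pos, mem_insert] at h
      simp only [List.sum_cons, List.length_cons] at ih ⊢
      rcases h with h | h
      · omega
      · have := ih _ _ h
        omega

theorem pos_card (x : List ℕ) : ∀ k : ℕ, (pos k x).card = x.length - 1 := by
  induction x with
  | nil => intro k; simp [pos]
  | cons a t ih =>
    intro k
    cases t with
    | nil => simp [pos]
    | cons b t =>
      rw [pos, card_insert_of_notMem, ih]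
      · simp
      · intro h
        have := (pos_bound _ _ _ h).1
        omega

theorem pos_indep (x : List ℕ) : ∀ k i : ℕ, i ∈ pos k x → i + 1 ∉ pos k x := by
  induction x with
  | nil => intro k i h; simp [pos] at h
  | cons a t ih =>
    intro k i h h'
    cases t with
    | nil => simp [pos] at h
    | cons b t =>
      rw [pos, mem_insert] at h h'
      rcases h with h | h
      · rcases h' with h' | h'
        · omega
        · have := (pos_bound _ _ _ h').1
          omega
      · rcases h' with h' | h'
        · have := (pos_bound _ _ _ h).1
          omega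
        · exact ih _ _ h h'

theorem pos_inj (x : List ℕ) : ∀ (k : ℕ) (y : List ℕ), pos k x = pos k y →
    x.length = y.length → x.sum = y.sum → x = y := by
  induction x with
  | nil =>
    intro k y _ h _
    exact (List.length_eq_zero_iff.1 h.symm).symm
  | cons a t ih =>
    intro k y h hl hs
    cases y with
    | nil => simp at hl
    | cons a' t' =>
      cases t with
      | nil =>
        simp at hl
        subst hl
        simp at hs
        rw [hs]
      | cons b t =>
        cases t' with
        | nil => simp at hl
        | cons b' t' =>
          rw [pos, pos] at h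
          have h1 : k + a ∈ insert (k + a') (pos (k + a' + 2) (b' :: t')) := by
            rw [← h]; exact mem_insert_self _ _
          have h2 : k + a' ∈ insert (k + a) (pos (k + a + 2) (b :: t)) := by
            rw [h]; exact mem_insert_self _ _
          rw [mem_insert] at h1 h2
          have haa : a = a' := by
            rcases h1 with h1 | h1
            · omega
            · have := (pos_bound _ _ _ h1).1
              rcases h2 with h2 | h2
              · omega
              · have := (pos_bound _ _ _ h2).1
                omega
          subst haa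
          have n1 : k + a ∉ pos (k + a + 2) (b :: t) := by
            intro hh; have := (pos_bound _ _ _ hh).1; omega
          have n2 : k + a ∉ pos (k + a + 2) (b' :: t') := by
            intro hh; have := (pos_bound _ _ _ hh).1; omega
          have h3 : pos (k + a + 2) (b :: t) = pos (k + a + 2) (b' :: t') := by
            have e1 := erase_insert n1
            have e2 := erase_insert n2
            rw [← e1, ← e2, h]
          have h4 := ih _ _ h3 (by simpa using hl) (by simpa using hs)
          rw [h4]

theorem pos_surj (L : ℕ) : ∀ (k : ℕ) (s : Finset ℕ), (∀ i ∈ s, k ≤ i ∧ i + 2 ≤ k + L) →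
    (∀ i ∈ s, i + 1 ∉ s) → ∃ x : List ℕ, x ≠ [] ∧ pos k x = s ∧ x.length = s.card + 1 ∧
      x.sum + 2 * s.card = L := by
  induction L using Nat.strong_induction_on with
  | _ L ih =>
    intro k s hs hi
    rcases Nat.eq_zero_or_pos L with hL | hL
    · subst hL
      have : s = ∅ := by
        rw [eq_empty_iff_forall_notMem]
        intro i h
        have := hs i h
        omega
      subst this
      exact ⟨[0], by simp, by simp [pos], by simp, by simp⟩
    · by_cases hk : k ∈ s
      · have hL2 : 2 ≤ L := by have := hs k hk; omega
        obtain ⟨x, hx0, hx1, hx2, hx3⟩ := ih (L - 2) (by omega) (k + 2) (s.erase k)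
          (by
            intro i h
            rw [mem_erase] at h
            have h1 := hs i h.2
            have h2 : i ≠ k + 1 := by
              rintro rfl
              exact hi k hk h.2
            have h3 := h.1
            omega)
          (by
            intro i h h'
            exact hi i (mem_of_mem_erase h) (mem_of_mem_erase h'))
        have hc : (s.erase k).card + 1 = s.card := card_erase_add_one hk
        refine ⟨0 :: x, by simp, ?_, ?_, ?_⟩
        · rw [pos_zero_cons k hx0, hx1, insert_erase hk]
        · simp only [List.length_cons]; omega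
        · simp only [List.sum_cons]; omega
      · obtain ⟨x, hx0, hx1, hx2, hx3⟩ := ih (L - 1) (by omega) (k + 1) s
          (by
            intro i h
            have h1 := hs i h
            have h2 : i ≠ k := by
              rintro rfl
              exact hk h
            omega) hi
        refine ⟨inc x, ?_, ?_, ?_, ?_⟩
        · cases x with
          | nil => exact absurd rfl hx0
          | cons a t => simp [inc]
        · rw [pos_inc, hx1]
        · cases x with
          | nil => exact absurd rfl hx0
          | cons a t => simpa [inc] using hx2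
        · cases x with
          | nil => exact absurd rfl hx0
          | cons a t =>
            simp only [inc, List.sum_cons] at hx3 ⊢
            omega

theorem pos_nb (x : List ℕ) : ∀ (k : ℕ) (y : List ℕ), y ∈ nb x → pos k x ⊆ pos k y := by
  induction x with
  | nil => intro k y h; simp [nb] at h
  | cons a t ih =>
    intro k y h
    rw [mem_nb_cons] at h
    rcases h with ⟨u, v, huv, rfl⟩ | ⟨y', hy', rfl⟩
    · cases t with
      | nil => simp [pos]
      | cons b t =>
        rw [pos, pos, pos]
        have e1 : k + u + 2 + v = k + a := by omega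
        rw [e1]
        exact subset_insert _ _
    · cases t with
      | nil => simp [nb] at hy'
      | cons b t =>
        cases y' with
        | nil =>
          have := (nb_length_sum hy').1
          simp at this
        | cons b' t' =>
          rw [pos, pos]
          exact insert_subset_insert _ (ih _ _ hy')

end Pool.Agent.IndWidth
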