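import Mathlib
import Pool.Agent.Helper646.IndWidth.Pos

set_option autoImplicit false

open Finset

namespace Pool.Agent.IndWidth

variable {V : Type} [Fintype V] [DecidableEq V]

open Classical in
/-- the levels of a family -/
noncomputable def LL (Q : Finset V → Prop) (r : ℕ) : Finset (Finset V) :=
  univ.filter (fun s => s.card = r ∧ Q s)

theorem mem_LL {Q : Finset V → Prop} {r : ℕ} {s : Finset V} :
    s ∈ LL Q r ↔ s.card = r ∧ Q s := by
  classical
  unfold LL
  rw [mem_filter]
  simp

theorem sperner_of (Q : Finset V → Prop) (R : ℕ)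
    (hpos : ∀ r ≤ R, 0 < (LL Q r).card)
    (hup : ∀ r < R, NMP (LL Q r) (LL Q (r + 1)) (· ⊆ ·))
    (hdown : ∀ r, R ≤ r → ∀ T ⊆ LL Q (r + 1), ∀ S ⊆ LL Q r,
      (∀ y ∈ T, ∀ x ∈ LL Q r, x ⊆ y → x ∈ S) → T.card ≤ S.card)
    (A : Finset (Finset V)) (hA : ∀ s ∈ A, Q s)
    (hanti : IsAntichain (· ⊆ ·) (A : Set (Finset V))) :
    ∃ r, A.card ≤ (LL Q r).card := by
  classical
  have hanti' : ∀ s ∈ A, ∀ t ∈ A, s ⊆ t → s = t := by
    intro s hs t ht hst
    by_contra hne
    exact hanti (mem_coe.2 hs) (mem_coe.2 ht) hne hst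
  set a : ℕ → ℕ := fun j => (A.filter (fun s => s.card = j)).card with ha
  set U : ℕ → Finset (Finset V) := fun r =>
    (LL Q r).filter (fun B => ∃ s ∈ A, s.card < r ∧ s ⊆ B) with hU
  set D : ℕ → Finset (Finset V) := fun r => (LL Q r).filter (fun B => ∃ s ∈ A, B ⊆ s) with hD
  have up : ∀ r ≤ R, ∑ j ∈ range r, (a j : ℝ) / ((LL Q j).card : ℝ) ≤
      ((U r).card : ℝ) / ((LL Q r).card : ℝ) := by
    intro r
    induction r with
    | zero => intro _; simp; positivity
    | succ r ih =>
      intro hr
      have ih' := ih (by omega)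
      rw [sum_range_succ]
      have hLr : (0 : ℝ) < (LL Q r).card := by exact_mod_cast hpos r (by omega)
      have hLr1 : (0 : ℝ) < (LL Q (r + 1)).card := by exact_mod_cast hpos (r + 1) hr
      have hsub : U r ∪ A.filter (fun s => s.card = r) ⊆ LL Q r := by
        apply union_subset (filter_subset _ _)
        intro s hs
        rw [mem_filter] at hs
        exact mem_LL.2 ⟨hs.2, hA s hs.1⟩
      have hdisj : Disjoint (U r) (A.filter (fun s => s.card = r)) := by
        rw [disjoint_left]
        intro B hB hB'
        simp only [hU, mem_filter] at hB hB'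
        obtain ⟨_, s, hs, hsr, hsB⟩ := hB
        have := hanti' s hs B hB'.1 hsB
        rw [this] at hsr
        omega
      have h1 := hup r (by omega) (U r ∪ A.filter (fun s => s.card = r)) hsub (U (r + 1))
        (filter_subset _ _) (by
          intro x hx y hy hxy
          simp only [hU, mem_filter]
          refine ⟨hy, ?_⟩
          rw [mem_union] at hx
          rcases hx with hx | hx
          · simp only [hU, mem_filter] at hx
            obtain ⟨_, s, hs, hsr, hsx⟩ := hx
            exact ⟨s, hs, by omega, hsx.trans hxy⟩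
          · rw [mem_filter] at hx
            exact ⟨x, hx.1, by omega, hxy⟩)
      rw [card_union_of_disjoint hdisj] at h1
      have h2 : (((U r).card : ℝ) + a r) * ((LL Q (r + 1)).card : ℝ) ≤
          ((U (r + 1)).card : ℝ) * ((LL Q r).card : ℝ) := by exact_mod_cast h1
      calc ∑ j ∈ range r, (a j : ℝ) / ((LL Q j).card : ℝ) + (a r : ℝ) / ((LL Q r).card : ℝ)
          ≤ ((U r).card : ℝ) / ((LL Q r).card : ℝ) + (a r : ℝ) / ((LL Q r).card : ℝ) := by
            linarith
        _ = (((U r).card : ℝ) + a r) / ((LL Q r).card : ℝ) := by ring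
        _ ≤ ((U (r + 1)).card : ℝ) / ((LL Q (r + 1)).card : ℝ) := by
            rw [div_le_div_iff₀ hLr hLr1]
            exact h2
  set N := R + Fintype.card V + 1 with hN
  have down : ∀ k r, R ≤ r → r + k = N → ∑ j ∈ Ico r N, a j ≤ (D r).card := by
    intro k
    induction k with
    | zero =>
      intro r _ hr
      have : Ico r N = ∅ := by rw [Ico_eq_empty_iff]; omega
      rw [this]; simp
    | succ k ih =>
      intro r hRr hr
      have ih' := ih (r + 1) (by omega) (by omega)
      rw [Finset.sum_eq_sum_Ico_succ_bot (by omega)]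
      have hAD : A.filter (fun s => s.card = r) ⊆ D r := by
        intro s hs
        rw [mem_filter] at hs
        simp only [hD, mem_filter]
        exact ⟨mem_LL.2 ⟨hs.2, hA s hs.1⟩, s, hs.1, Subset.refl _⟩
      have h1 := hdown r hRr (D (r + 1)) (filter_subset _ _)
        (D r \ A.filter (fun s => s.card = r))
        (sdiff_subset.trans (filter_subset _ _)) (by
          intro y hy x hx hxy
          simp only [hD, mem_filter] at hy
          obtain ⟨hy1, s, hs, hys⟩ := hy
          rw [mem_sdiff]
          refine ⟨?_, ?_⟩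
          · simp only [hD, mem_filter]
            exact ⟨hx, s, hs, hxy.trans hys⟩
          · intro hx'
            rw [mem_filter] at hx'
            have e1 := hanti' x hx'.1 s hs (hxy.trans hys)
            have e2 := card_le_card hys
            have e3 := (mem_LL.1 hy1).1
            have e4 := hx'.2
            rw [e1] at e4
            omega)
      have h2 : (D r \ A.filter (fun s => s.card = r)).card + a r = (D r).card := by
        rw [card_sdiff_of_subset hAD]
        have := card_le_card hAD
        simp only [ha]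
        omega
      omega
  have hd := down (N - R) R le_rfl (by omega)
  have hu := up R le_rfl
  have hLR : (0 : ℝ) < (LL Q R).card := by exact_mod_cast hpos R le_rfl
  have hdisj : Disjoint (U R) (D R) := by
    rw [disjoint_left]
    intro B hB hB'
    simp only [hU, hD, mem_filter] at hB hB'
    obtain ⟨hBL, s, hs, hsr, hsB⟩ := hB
    obtain ⟨_, s', hs', hBs'⟩ := hB'
    have e1 := hanti' s hs s' hs' (hsB.trans hBs')
    have e2 := card_le_card hBs'
    rw [← e1] at e2
    have e3 := (mem_LL.1 hBL).1
    omega
  have hUD : (U R).card + (D R).card ≤ (LL Q R).card := by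
    rw [← card_union_of_disjoint hdisj]
    exact card_le_card (union_subset (filter_subset _ _) (filter_subset _ _))
  obtain ⟨p, hp, hpmax⟩ := exists_max_image (range (R + 1)) (fun j => (LL Q j).card)
    ⟨0, by simp⟩
  refine ⟨p, ?_⟩
  have hM : (0 : ℝ) < (LL Q p).card := by
    rw [mem_range] at hp
    exact_mod_cast hpos p (by omega)
  have hAcard : A.card = ∑ j ∈ range N, a j := by
    simp only [ha]
    rw [← card_eq_sum_card_fiberwise (f := fun s => s.card) (s := A) (t := range N)]
    intro s _
    simp only [coe_range, Set.mem_Iio]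
    have := card_le_univ s
    omega
  have hsplit : ∑ j ∈ range N, a j = ∑ j ∈ range R, a j + ∑ j ∈ Ico R N, a j := by
    rw [← sum_range_add_sum_Ico _ (by omega : R ≤ N)]
  have key : (A.card : ℝ) / (LL Q p).card ≤ 1 := by
    rw [hAcard, hsplit]
    push_cast
    rw [add_div]
    have h1 : (∑ j ∈ range R, (a j : ℝ)) / (LL Q p).card ≤
        ∑ j ∈ range R, (a j : ℝ) / ((LL Q j).card : ℝ) := by
      rw [sum_div]
      apply sum_le_sum
      intro j hj
      rw [mem_range] at hj
      apply div_le_div_of_nonneg_left (Nat.cast_nonneg _)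
      · exact_mod_cast hpos j (by omega)
      · exact_mod_cast hpmax j (by rw [mem_range]; omega)
    have h2 : (∑ j ∈ Ico R N, (a j : ℝ)) / (LL Q p).card ≤
        ((D R).card : ℝ) / ((LL Q R).card : ℝ) := by
      have h3 : (∑ j ∈ Ico R N, (a j : ℝ)) ≤ (D R).card := by exact_mod_cast hd
      have h4 : ((LL Q R).card : ℝ) ≤ (LL Q p).card := by
        exact_mod_cast hpmax R (by rw [mem_range]; omega)
      calc (∑ j ∈ Ico R N, (a j : ℝ)) / (LL Q p).card ≤ ((D R).card : ℝ) / (LL Q p).card :=
            div_le_div_of_nonneg_right h3 hM.le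
        _ ≤ _ := div_le_div_of_nonneg_left (Nat.cast_nonneg _) hLR h4
    have h5 : ((U R).card : ℝ) / ((LL Q R).card : ℝ) + ((D R).card : ℝ) / ((LL Q R).card : ℝ) ≤
        1 := by
      rw [← add_div, div_le_one hLR]
      exact_mod_cast hUD
    linarith
  rw [div_le_one hM] at key
  exact_mod_cast key

/-- the degree argument -/
theorem down_of_degree (Q : Finset V → Prop) (hQ : ∀ s t, s ⊆ t → Q t → Q s) (r : ℕ)
    (hdeg : ∀ x ∈ LL Q r, ((LL Q (r + 1)).filter (fun y => x ⊆ y)).card ≤ r + 1) :
    ∀ T ⊆ LL Q (r + 1), ∀ S ⊆ LL Q r,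
      (∀ y ∈ T, ∀ x ∈ LL Q r, x ⊆ y → x ∈ S) → T.card ≤ S.card := by
  classical
  intro T hT S hS hcl
  have h := card_mul_le_card_mul (s := T) (t := S) (m := r + 1) (n := r + 1)
    (fun (y x : Finset V) => x ⊆ y) (by
      intro y hy
      have hy' := mem_LL.1 (hT hy)
      have h1 : y.image (fun i => y.erase i) ⊆ bipartiteAbove (fun (y x : Finset V) => x ⊆ y) S y := by
        intro x hx
        rw [mem_image] at hx
        obtain ⟨i, hi, rfl⟩ := hx
        rw [mem_bipartiteAbove]
        refine ⟨hcl y hy _ ?_ (erase_subset _ _), erase_subset _ _⟩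
        rw [mem_LL]
        refine ⟨?_, hQ _ _ (erase_subset _ _) hy'.2⟩
        have := card_erase_add_one hi
        omega
      have h2 : (y.image (fun i => y.erase i)).card = r + 1 := by
        rw [card_image_of_injOn, hy'.1]
        intro i hi j hj hij
        by_contra hne
        have : i ∈ y.erase j := mem_erase.2 ⟨hne, hi⟩
        simp only at hij
        rw [← hij] at this
        exact notMem_erase i y this
      rw [← h2]
      exact card_le_card h1) (by
      intro x hx
      refine le_trans (card_le_card ?_) (hdeg x (hS hx))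
      intro y hy
      rw [mem_bipartiteBelow] at hy
      rw [mem_filter]
      exact ⟨hT hy.1, hy.2⟩)
  exact Nat.le_of_mul_le_mul_right h (by omega)

/-- counting the supersets by free vertices -/
theorem degree_le (Q : Finset V → Prop) (r : ℕ) (x : Finset V) (hx : x ∈ LL Q r)
    (B : Finset V) (hB : ∀ v, v ∉ x → Q (insert v x) → v ∈ B) :
    ((LL Q (r + 1)).filter (fun y => x ⊆ y)).card ≤ B.card := by
  classical
  have h1 : (LL Q (r + 1)).filter (fun y => x ⊆ y) ⊆ B.image (fun v => insert v x) := by
    intro y hy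
    rw [mem_filter, mem_LL] at hy
    obtain ⟨⟨hy1, hy2⟩, hxy⟩ := hy
    have hx1 := (mem_LL.1 hx).1
    have h2 : (y \ x).card = 1 := by
      rw [card_sdiff_of_subset hxy]; omega
    obtain ⟨v, hv⟩ := card_eq_one.1 h2
    have h3 : insert v x = y := by
      rw [insert_eq, ← hv, sdiff_union_of_subset hxy]
    rw [mem_image]
    refine ⟨v, hB v ?_ (by rw [h3]; exact hy2), h3⟩
    have : v ∈ y \ x := by rw [hv]; exact mem_singleton_self v
    exact (mem_sdiff.1 this).2
  exact (card_le_card h1).trans card_image_le

end Pool.Agent.IndWidth
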