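import Mathlib
import Pool.Agent.Helper646.IndWidth.Sperner

set_option autoImplicit false

open Finset

namespace Pool.Agent.IndWidth

/-- independence in the path -/
def PQ (n : ℕ) (s : Finset (Fin n)) : Prop := ∀ u ∈ s, ∀ v ∈ s, u.val + 1 ≠ v.val

/-- encoding of lists as vertex sets -/
def enc (n : ℕ) (x : List ℕ) : Finset (Fin n) := univ.filter (fun i => i.val ∈ pos 0 x)

theorem mem_enc {n : ℕ} {x : List ℕ} {i : Fin n} : i ∈ enc n x ↔ i.val ∈ pos 0 x := by
  unfold enc; simp

theorem enc_map {n r m : ℕ} (h : m + 2 * r = n + 1) {x : List ℕ} (hx : x ∈ WW r m) :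
    (enc n x).map Fin.valEmbedding = pos 0 x := by
  rw [mem_WW] at hx
  ext i
  rw [mem_map]
  constructor
  · rintro ⟨j, hj, rfl⟩
    exact mem_enc.1 hj
  · intro hi
    have h1 := pos_bound x 0 i hi
    refine ⟨⟨i, by omega⟩, ?_, rfl⟩
    rw [mem_enc]
    exact hi

theorem enc_injOn {n r m : ℕ} (h : m + 2 * r = n + 1) : Set.InjOn (enc n) (WW r m) := by
  intro x hx y hy hxy
  rw [mem_coe] at hx hy
  have h1 := enc_map h hx
  have h2 := enc_map h hy
  rw [hxy] at h1
  rw [h1] at h2
  rw [mem_WW] at hx hy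
  exact pos_inj x 0 y h2 (by omega) (by omega)

theorem enc_image {n r m : ℕ} (h : m + 2 * r = n + 1) :
    (WW r m).image (enc n) = LL (PQ n) r := by
  ext s
  rw [mem_image, mem_LL]
  constructor
  · rintro ⟨x, hx, rfl⟩
    have h1 := enc_map h hx
    refine ⟨?_, ?_⟩
    · have h2 := congrArg Finset.card h1
      rw [card_map, pos_card] at h2
      rw [mem_WW] at hx
      omega
    · intro u hu v hv huv
      rw [mem_enc] at hu hv
      rw [← huv] at hv
      exact pos_indep x 0 _ hu hv
  · rintro ⟨hc, hs⟩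
    obtain ⟨x, hx0, hx1, hx2, hx3⟩ := pos_surj (n + 1) 0 (s.map Fin.valEmbedding)
      (by
        intro i hi
        rw [mem_map] at hi
        obtain ⟨j, _, rfl⟩ := hi
        have := j.isLt
        simp only [Fin.valEmbedding_apply]
        omega)
      (by
        intro i hi hi'
        rw [mem_map] at hi hi'
        obtain ⟨j, hj, rfl⟩ := hi
        obtain ⟨j', hj', h4⟩ := hi'
        exact hs j hj j' hj' h4.symm)
    rw [card_map, hc] at hx2 hx3
    refine ⟨x, (mem_WW _ _ _).2 ⟨hx2, by omega⟩, ?_⟩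
    ext i
    rw [mem_enc, hx1, mem_map]
    constructor
    · rintro ⟨j, hj, h4⟩
      have : j = i := Fin.val_injective h4
      rwa [← this]
    · intro hi
      exact ⟨i, hi, rfl⟩

theorem LL_path_card {n r m : ℕ} (h : m + 2 * r = n + 1) :
    (LL (PQ n) r).card = (m + r).choose r := by
  rw [← enc_image h, card_image_of_injOn (enc_injOn h), card_WW]

theorem NMP_path {n r : ℕ} (h : 3 * r + 1 ≤ n) :
    NMP (LL (PQ n) r) (LL (PQ n) (r + 1)) (· ⊆ ·) := by
  obtain ⟨k, hk⟩ : ∃ k, n + 1 = k + 2 + 2 * r := ⟨n - 1 - 2 * r, by omega⟩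
  have h1 : k + 2 + 2 * r = n + 1 := hk.symm
  have h2 : k + 2 * (r + 1) = n + 1 := by omega
  apply NMP.transfer (enc n) (enc n) (enc_injOn h1) (enc_injOn h2) (enc_image h1) (enc_image h2)
    (rel := fun x y => y ∈ nb x)
  · intro x _ y _ hxy i hi
    rw [mem_enc] at hi ⊢
    exact pos_nb x 0 y hxy hi
  · exact NMP_lists k r (by omega)

theorem PQ_mono {n : ℕ} (s t : Finset (Fin n)) (hst : s ⊆ t) (h : PQ n t) : PQ n s :=
  fun u hu v hv => h u (hst hu) v (hst hv)

theorem path_degree {n r : ℕ} (h : n ≤ 3 * r) (x : Finset (Fin n)) (hx : x ∈ LL (PQ n) r) :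
    ((LL (PQ n) (r + 1)).filter (fun y => x ⊆ y)).card ≤ r + 1 := by
  obtain ⟨hxc, hxQ⟩ := mem_LL.1 hx
  set B : Finset (Fin n) := univ.filter (fun v => v ∉ x ∧ ∀ u ∈ x, u.val + 1 ≠ v.val) with hB
  refine (degree_le (PQ n) r x hx B ?_).trans ?_
  · intro v hv hQ
    rw [hB, mem_filter]
    refine ⟨mem_univ _, hv, ?_⟩
    intro u hu
    exact hQ u (mem_insert_of_mem hu) v (mem_insert_self _ _)
  · have h1 : B.image Fin.val ⊆
        range (n + 1) \ (x.image Fin.val ∪ x.image (fun u => u.val + 1)) := by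
      intro i hi
      rw [mem_image] at hi
      obtain ⟨v, hv, rfl⟩ := hi
      rw [hB, mem_filter] at hv
      rw [mem_sdiff, mem_range, mem_union, mem_image, mem_image]
      refine ⟨by have := v.isLt; omega, ?_⟩
      rintro (⟨u, hu, huv⟩ | ⟨u, hu, huv⟩)
      · have : u = v := Fin.val_injective huv
        rw [this] at hu
        exact hv.2.1 hu
      · exact hv.2.2 u hu huv
    have h2 : (x.image Fin.val ∪ x.image (fun u => u.val + 1)).card = 2 * r := by
      rw [card_union_of_disjoint, card_image_of_injective _ Fin.val_injective,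
        card_image_of_injective, hxc]
      · ring
      · intro a b hab
        simp only [add_left_inj] at hab
        exact Fin.val_injective hab
      · rw [disjoint_left]
        intro i hi hi'
        rw [mem_image] at hi hi'
        obtain ⟨u, hu, rfl⟩ := hi
        obtain ⟨w, hw, hwu⟩ := hi'
        exact hxQ w hw u hu hwu
    have h3 : x.image Fin.val ∪ x.image (fun u => u.val + 1) ⊆ range (n + 1) := by
      intro i hi
      rw [mem_union, mem_image, mem_image] at hi
      rw [mem_range]
      rcases hi with ⟨u, _, rfl⟩ | ⟨u, _, rfl⟩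
      · have := u.isLt; omega
      · have := u.isLt; omega
    have h4 := card_le_card h1
    rw [card_image_of_injective _ Fin.val_injective, card_sdiff_of_subset h3, h2,
      card_range] at h4
    omega

theorem path_main {n : ℕ} (A : Finset (Finset (Fin n))) (hA : ∀ s ∈ A, PQ n s)
    (hanti : IsAntichain (· ⊆ ·) (A : Set (Finset (Fin n)))) :
    ∃ r, A.card ≤ (LL (PQ n) r).card := by
  apply sperner_of (PQ n) ((n + 2) / 3) _ _ _ A hA hanti
  · intro r hr
    rw [LL_path_card (m := n + 1 - 2 * r) (by omega)]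
    apply Nat.choose_pos
    omega
  · intro r hr
    exact NMP_path (by omega)
  · intro r hr
    exact down_of_degree (PQ n) PQ_mono r (path_degree (by omega))

end Pool.Agent.IndWidth
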