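import Mathlib
import Pool.Agent.Helper646.IndWidth.Path

set_option autoImplicit false

open Finset

namespace Pool.Agent.IndWidth

/-- independence in the cycle on `k + 3` vertices -/
def CQ (k : ℕ) (s : Finset (Fin (k + 3))) : Prop := ∀ u ∈ s, ∀ v ∈ s, v ≠ u + 1

theorem CQ_mono {k : ℕ} (s t : Finset (Fin (k + 3))) (hst : s ⊆ t) (h : CQ k t) : CQ k s :=
  fun u hu v hv => h u (hst hu) v (hst hv)

/-- shift by two -/
def sh {k : ℕ} (i : Fin k) : Fin (k + 3) := ⟨i.val + 2, by omega⟩

theorem sh_inj {k : ℕ} : Function.Injective (sh (k := k)) := by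
  intro i j h
  have := congrArg Fin.val h
  simp only [sh] at this
  exact Fin.ext (by omega)

theorem one_val (k : ℕ) : ((1 : Fin (k + 3)) : ℕ) = 1 := rfl

theorem sh_ne_zero {k : ℕ} (i : Fin k) : sh i ≠ 0 := by
  intro h
  have := congrArg Fin.val h
  simp [sh] at this

theorem sh_ne_one {k : ℕ} (i : Fin k) : sh i ≠ 1 := by
  intro h
  have := congrArg Fin.val h
  rw [one_val] at this
  simp [sh] at this

theorem sh_add_one_val {k : ℕ} (i : Fin k) : (sh i + 1 : Fin (k + 3)).val = i.val + 3 := by
  rw [Fin.val_add, one_val]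
  simp only [sh]
  rw [Nat.mod_eq_of_lt (by omega)]

theorem sh_add_one_ne_zero {k : ℕ} (i : Fin k) : sh i + 1 ≠ 0 := by
  intro h
  have := congrArg Fin.val h
  rw [sh_add_one_val] at this
  simp at this

theorem sh_add_one_eq {k : ℕ} (i j : Fin k) : sh j = sh i + 1 ↔ i.val + 1 = j.val := by
  constructor
  · intro h
    have := congrArg Fin.val h
    rw [sh_add_one_val] at this
    simp only [sh] at this
    omega
  · intro h
    apply Fin.ext
    rw [sh_add_one_val]
    simp only [sh]
    omega

theorem exists_sh {k : ℕ} (d : Fin (k + 3)) (h0 : d ≠ 0) (h1 : d ≠ 1) (h2 : d + 1 ≠ 0) :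
    ∃ i : Fin k, sh i = d := by
  have e0 : d.val ≠ 0 := by
    intro h; apply h0; apply Fin.ext; rw [h]; rfl
  have e1 : d.val ≠ 1 := by
    intro h; apply h1; apply Fin.ext; rw [h]; rfl
  have e2 : d.val ≠ k + 2 := by
    intro h; apply h2; apply Fin.ext
    rw [Fin.val_add, one_val, h]
    simp
  have e3 := d.isLt
  refine ⟨⟨d.val - 2, by omega⟩, ?_⟩
  apply Fin.ext
  simp only [sh]
  omega

/-- the vertex set obtained from a path set by adding the vertex `v` -/
def eta {k : ℕ} (v : Fin (k + 3)) (t : Finset (Fin k)) : Finset (Fin (k + 3)) :=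
  insert v (t.image (fun i => v + sh i))

theorem not_mem_image {k : ℕ} (v : Fin (k + 3)) (t : Finset (Fin k)) :
    v ∉ t.image (fun i => v + sh i) := by
  intro h
  rw [mem_image] at h
  obtain ⟨i, _, hi⟩ := h
  apply sh_ne_zero i
  have : v + sh i = v + 0 := by rw [hi, add_zero]
  exact add_left_cancel this

theorem eta_card {k : ℕ} (v : Fin (k + 3)) (t : Finset (Fin k)) :
    (eta v t).card = t.card + 1 := by
  unfold eta
  rw [card_insert_of_notMem (not_mem_image v t), card_image_of_injective]
  intro i j h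
  exact sh_inj (add_left_cancel h)

theorem eta_inj {k : ℕ} (v : Fin (k + 3)) : Function.Injective (eta v) := by
  intro s t h
  have h1 : s.image (fun i => v + sh i) = t.image (fun i => v + sh i) := by
    have e1 := erase_insert (not_mem_image v s)
    have e2 := erase_insert (not_mem_image v t)
    unfold eta at h
    rw [← e1, ← e2, h]
  have hinj : Function.Injective (fun i : Fin k => v + sh i) := by
    intro i j h
    exact sh_inj (add_left_cancel h)
  exact image_injective hinj h1

theorem eta_CQ {k : ℕ} (v : Fin (k + 3)) (t : Finset (Fin k)) : CQ k (eta v t) ↔ PQ k t := by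
  unfold eta
  constructor
  · intro h i hi j hj hij
    apply h (v + sh i) (mem_insert_of_mem (mem_image_of_mem _ hi)) (v + sh j)
      (mem_insert_of_mem (mem_image_of_mem _ hj))
    rw [(sh_add_one_eq i j).2 hij, add_assoc]
  · intro h a ha b hb hab
    rw [mem_insert, mem_image] at ha hb
    rcases ha with rfl | ⟨i, hi, rfl⟩
    · rcases hb with rfl | ⟨j, hj, rfl⟩
      · have : (b : Fin (k + 3)) + 0 = b + 1 := by rw [add_zero]; exact hab
        have h1 := add_left_cancel this
        have := congrArg Fin.val h1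
        rw [one_val] at this
        simp at this
      · exact sh_ne_one j (add_left_cancel hab)
    · rcases hb with rfl | ⟨j, hj, rfl⟩
      · have : (b : Fin (k + 3)) + (sh i + 1) = b + 0 := by rw [add_zero, ← add_assoc]; exact hab.symm
        exact sh_add_one_ne_zero i (add_left_cancel this)
      · rw [add_assoc] at hab
        exact h i hi j hj ((sh_add_one_eq i j).1 (add_left_cancel hab))

theorem eta_mono {k : ℕ} (v : Fin (k + 3)) {s t : Finset (Fin k)} (h : s ⊆ t) :
    eta v s ⊆ eta v t := by
  unfold eta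
  exact insert_subset_insert _ (image_subset_image h)

open Classical in
theorem eta_image {k r : ℕ} (v : Fin (k + 3)) :
    (LL (PQ k) r).image (eta v) = (LL (CQ k) (r + 1)).filter (fun s => v ∈ s) := by
  ext s
  rw [mem_image, mem_filter, mem_LL]
  constructor
  · rintro ⟨t, ht, rfl⟩
    obtain ⟨h1, h2⟩ := mem_LL.1 ht
    exact ⟨⟨by rw [eta_card, h1], (eta_CQ v t).2 h2⟩, mem_insert_self _ _⟩
  · rintro ⟨⟨h1, h2⟩, h3⟩
    set t : Finset (Fin k) := univ.filter (fun i => v + sh i ∈ s) with ht
    have h4 : eta v t = s := by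
      ext u
      unfold eta
      rw [mem_insert, mem_image]
      constructor
      · rintro (rfl | ⟨i, hi, rfl⟩)
        · exact h3
        · rw [ht, mem_filter] at hi
          exact hi.2
      · intro hu
        by_cases huv : u = v
        · exact Or.inl huv
        · right
          obtain ⟨i, hi⟩ := exists_sh (u - v) (sub_ne_zero.2 huv)
            (by
              intro h
              apply h2 v h3 u hu
              rw [← h]; abel)
            (by
              intro h
              apply h2 u hu v h3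
              have : u + 1 - v = 0 := by rw [← h]; abel
              exact (sub_eq_zero.1 this).symm)
          have h5 : v + sh i = u := by rw [hi]; abel
          refine ⟨i, ?_, h5⟩
          rw [ht, mem_filter, h5]
          exact ⟨mem_univ _, hu⟩
    refine ⟨t, mem_LL.2 ⟨?_, ?_⟩, h4⟩
    · have := eta_card v t
      rw [h4] at this
      omega
    · rw [← eta_CQ v, h4]; exact h2

theorem sum_card_filter_mem {k : ℕ} (S : Finset (Finset (Fin (k + 3)))) (r : ℕ)
    (h : ∀ s ∈ S, s.card = r) :
    ∑ v : Fin (k + 3), (S.filter (fun s => v ∈ s)).card = r * S.card := by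
  have h1 : ∀ v : Fin (k + 3), (S.filter (fun s => v ∈ s)).card = ∑ s ∈ S, if v ∈ s then 1 else 0 := by
    intro v
    rw [card_filter]
  simp only [h1]
  rw [sum_comm]
  have h2 : ∀ s ∈ S, ∑ v : Fin (k + 3), (if v ∈ s then 1 else 0) = r := by
    intro s hs
    rw [← card_filter, filter_mem_eq_inter, univ_inter, h s hs]
  rw [sum_congr rfl h2, sum_const, smul_eq_mul, mul_comm]

theorem NMP_cycle {k r : ℕ} (h : 3 * r ≤ k + 2) :
    NMP (LL (CQ k) r) (LL (CQ k) (r + 1)) (· ⊆ ·) := by
  classical
  rcases Nat.eq_zero_or_pos r with rfl | hr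
  · intro S hS T hT hcl
    rcases S.eq_empty_or_nonempty with hS0 | hS0
    · subst hS0; simp
    · obtain ⟨s, hs⟩ := hS0
      have hs1 := (mem_LL.1 (hS hs)).1
      rw [card_eq_zero] at hs1
      subst hs1
      have h1 : LL (CQ k) 1 ⊆ T := by
        intro y hy
        exact hcl ∅ hs y hy (empty_subset _)
      have h2 : S.card ≤ (LL (CQ k) 0).card := card_le_card hS
      have h3 := card_le_card h1
      calc S.card * (LL (CQ k) (0 + 1)).card ≤ (LL (CQ k) 0).card * T.card := Nat.mul_le_mul h2 h3
        _ = _ := by ring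
  · obtain ⟨q, rfl⟩ : ∃ q, r = q + 1 := ⟨r - 1, by omega⟩
    intro S hS T hT hcl
    have hp : NMP (LL (PQ k) q) (LL (PQ k) (q + 1)) (· ⊆ ·) := NMP_path (by omega)
    have hv : ∀ v : Fin (k + 3), (S.filter (fun s => v ∈ s)).card * (LL (PQ k) (q + 1)).card ≤
        (T.filter (fun s => v ∈ s)).card * (LL (PQ k) q).card := by
      intro v
      have h1 : NMP ((LL (CQ k) (q + 1)).filter (fun s => v ∈ s))
          ((LL (CQ k) (q + 1 + 1)).filter (fun s => v ∈ s)) (· ⊆ ·) :=
        NMP.transfer (eta v) (eta v) (eta_inj v).injOn (eta_inj v).injOn (eta_image v)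
          (eta_image v) (fun x _ y _ hxy => eta_mono v hxy) hp
      have h2 := h1 (S.filter (fun s => v ∈ s)) (filter_subset_filter _ hS)
        (T.filter (fun s => v ∈ s)) (filter_subset_filter _ hT) (by
          intro x hx y hy hxy
          rw [mem_filter] at hx hy ⊢
          exact ⟨hcl x hx.1 y hy.1 hxy, hy.2⟩)
      rw [← eta_image, ← eta_image, card_image_of_injective _ (eta_inj v),
        card_image_of_injective _ (eta_inj v)] at h2
      exact h2
    have hsum := sum_le_sum (fun v (_ : v ∈ (univ : Finset (Fin (k + 3)))) => hv v)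
    rw [← sum_mul, ← sum_mul, sum_card_filter_mem S (q + 1) (fun s hs => (mem_LL.1 (hS hs)).1),
      sum_card_filter_mem T (q + 2) (fun s hs => (mem_LL.1 (hT hs)).1)] at hsum
    have hcard : ∀ q, (k + 3) * (LL (PQ k) q).card = (q + 1) * (LL (CQ k) (q + 1)).card := by
      intro q
      have h1 := sum_card_filter_mem (LL (CQ k) (q + 1)) (q + 1) (fun s hs => (mem_LL.1 hs).1)
      rw [← h1]
      have h2 : ∀ v : Fin (k + 3), ((LL (CQ k) (q + 1)).filter (fun s => v ∈ s)).card =
          (LL (PQ k) q).card := by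
        intro v
        rw [← eta_image, card_image_of_injective _ (eta_inj v)]
      simp only [h2]
      simp
    have c1 := hcard q
    have c2 := hcard (q + 1)
    have h3 : (q + 1) * (q + 2) * (S.card * (LL (CQ k) (q + 1 + 1)).card) ≤
        (q + 1) * (q + 2) * (T.card * (LL (CQ k) (q + 1)).card) := by
      calc (q + 1) * (q + 2) * (S.card * (LL (CQ k) (q + 1 + 1)).card)
          = (q + 1) * S.card * ((q + 1 + 1) * (LL (CQ k) (q + 1 + 1)).card) := by ring
        _ = (q + 1) * S.card * ((k + 3) * (LL (PQ k) (q + 1)).card) := by rw [c2]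
        _ = (k + 3) * ((q + 1) * S.card * (LL (PQ k) (q + 1)).card) := by ring
        _ ≤ (k + 3) * ((q + 2) * T.card * (LL (PQ k) q).card) := Nat.mul_le_mul_left _ hsum
        _ = (q + 2) * T.card * ((k + 3) * (LL (PQ k) q).card) := by ring
        _ = (q + 2) * T.card * ((q + 1) * (LL (CQ k) (q + 1)).card) := by rw [c1]
        _ = _ := by ring
    exact Nat.le_of_mul_le_mul_left h3 (by positivity)

theorem cycle_degree {k r : ℕ} (h : k + 2 ≤ 3 * r) (x : Finset (Fin (k + 3)))
    (hx : x ∈ LL (CQ k) r) :
    ((LL (CQ k) (r + 1)).filter (fun y => x ⊆ y)).card ≤ r + 1 := by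
  obtain ⟨hxc, hxQ⟩ := mem_LL.1 hx
  set B : Finset (Fin (k + 3)) := univ \ (x ∪ x.image (fun u => u + 1)) with hB
  refine (degree_le (CQ k) r x hx B ?_).trans ?_
  · intro v hv hQ
    rw [hB, mem_sdiff, mem_union, mem_image]
    refine ⟨mem_univ _, ?_⟩
    rintro (h1 | ⟨u, hu, huv⟩)
    · exact hv h1
    · exact hQ u (mem_insert_of_mem hu) v (mem_insert_self _ _) huv.symm
  · have h2 : (x ∪ x.image (fun u => u + 1)).card = 2 * r := by
      rw [card_union_of_disjoint, card_image_of_injective _ (add_left_injective 1), hxc]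
      · ring
      · rw [disjoint_left]
        intro i hi hi'
        rw [mem_image] at hi'
        obtain ⟨u, hu, rfl⟩ := hi'
        exact hxQ u hu _ hi rfl
    rw [hB, card_sdiff_of_subset (subset_univ _), h2, card_univ, Fintype.card_fin]
    omega

theorem cycle_main {k : ℕ} (A : Finset (Finset (Fin (k + 3)))) (hA : ∀ s ∈ A, CQ k s)
    (hanti : IsAntichain (· ⊆ ·) (A : Set (Finset (Fin (k + 3))))) :
    ∃ r, A.card ≤ (LL (CQ k) r).card := by
  classical
  apply sperner_of (CQ k) ((k + 4) / 3) _ _ _ A hA hanti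
  · intro r hr
    rcases Nat.eq_zero_or_pos r with rfl | hr0
    · rw [card_pos]
      refine ⟨∅, mem_LL.2 ⟨rfl, ?_⟩⟩
      intro u hu
      simp at hu
    · obtain ⟨q, rfl⟩ : ∃ q, r = q + 1 := ⟨r - 1, by omega⟩
      have h1 : 0 < (LL (PQ k) q).card := by
        rw [LL_path_card (m := k + 1 - 2 * q) (by omega)]
        apply Nat.choose_pos
        omega
      rw [card_pos] at h1 ⊢
      obtain ⟨t, ht⟩ := h1
      have h2 := mem_image_of_mem (eta (0 : Fin (k + 3))) ht
      rw [eta_image, mem_filter] at h2
      exact ⟨_, h2.1⟩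
  · intro r hr
    exact NMP_cycle (by omega)
  · intro r hr
    exact down_of_degree (CQ k) CQ_mono r (cycle_degree (by omega))

end Pool.Agent.IndWidth
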